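import Pool.Agent.Helper75.KS.GoalsA

/-!
# The Kahn-Saks conjecture, project KS: PIG
-/

namespace Pool.Agent.Helper60.KS

open MeasureTheory Filter Topology Set Finset
open Pool.Agent.Helper44.KS Pool.Agent.Helper75.KS

theorem sft_nonneg (τ x y : ℝ) : 0 ≤ sft τ x y := le_max_left _ _

theorem sft_le_one (τ x y : ℝ) : sft τ x y ≤ 1 := max_le zero_le_one (min_le_left _ _)

theorem sft_one {τ x y : ℝ} (hτ : 0 < τ) (h : x ≤ y) : sft τ x y = 1 := by
  have h1 : 1 ≤ (y + τ - x) / τ := by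
    rw [le_div_iff₀ hτ]
    linarith
  unfold sft
  rw [min_eq_left h1, max_eq_right zero_le_one]

theorem sft_zero {τ x y : ℝ} (hτ : 0 < τ) (h : y + τ < x) : sft τ x y = 0 := by
  have h1 : (y + τ - x) / τ ≤ 0 := div_nonpos_of_nonpos_of_nonneg (by linarith) hτ.le
  unfold sft
  exact max_eq_left ((min_le_right _ _).trans h1)

theorem sft_cont {n : ℕ} (τ : ℝ) (p q : Fin n) :
    Continuous fun d : Fin n → ℝ => sft τ (d p) (d q) := by
  unfold sft
  fun_prop

theorem sft_int {c : ℝ} (Z : KSys c) (τ : ℝ) (p q : Fin Z.n) :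
    Integrable (fun d : Fin Z.n → ℝ => sft τ (d p) (d q)) Z.μ := by
  refine Integrable.of_bound (sft_cont τ p q).aestronglyMeasurable 1 ?_
  refine Filter.Eventually.of_forall fun d => ?_
  rw [Real.norm_eq_abs, abs_of_nonneg (sft_nonneg _ _ _)]
  exact sft_le_one _ _ _

theorem sft_ge {c : ℝ} (Z : KSys c) {τ : ℝ} (hτ : 0 < τ) (p q : Fin Z.n) :
    Z.μ.real {d | d p < d q} ≤ ∫ d, sft τ (d p) (d q) ∂Z.μ := by
  have hm : MeasurableSet {d : Fin Z.n → ℝ | d p < d q} :=
    measurableSet_lt (measurable_pi_apply p) (measurable_pi_apply q)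
  have h1 : Z.μ.real {d | d p < d q} =
      ∫ d, ({d : Fin Z.n → ℝ | d p < d q}).indicator (fun _ => (1 : ℝ)) d ∂Z.μ := by
    rw [integral_indicator_const _ hm]
    simp
  rw [h1]
  refine integral_mono ((integrable_const (1 : ℝ)).indicator hm) (sft_int Z τ p q) fun d => ?_
  by_cases hd : d ∈ {d : Fin Z.n → ℝ | d p < d q}
  · rw [indicator_of_mem hd]
    exact (sft_one hτ (le_of_lt hd)).ge
  · rw [indicator_of_notMem hd]
    exact sft_nonneg _ _ _

theorem sft_le {c : ℝ} (Z : KSys c) {τ : ℝ} (hτ : 0 < τ) (p q : Fin Z.n) :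
    ∫ d, sft τ (d q) (d p) ∂Z.μ ≤ Z.μ.real {d | d q < d p} +
      Z.μ.real {d | 0 ≤ d q - d p ∧ d q - d p ≤ 0 + τ} := by
  have hm : MeasurableSet {d : Fin Z.n → ℝ | d q < d p} :=
    measurableSet_lt (measurable_pi_apply q) (measurable_pi_apply p)
  have hsub : Measurable fun d : Fin Z.n → ℝ => d q - d p :=
    (measurable_pi_apply q).sub (measurable_pi_apply p)
  have hm' : MeasurableSet {d : Fin Z.n → ℝ | 0 ≤ d q - d p ∧ d q - d p ≤ 0 + τ} :=
    (measurableSet_le measurable_const hsub).inter (measurableSet_le hsub measurable_const)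
  have h1 : Z.μ.real {d | d q < d p} =
      ∫ d, ({d : Fin Z.n → ℝ | d q < d p}).indicator (fun _ => (1 : ℝ)) d ∂Z.μ := by
    rw [integral_indicator_const _ hm]
    simp
  have h2 : Z.μ.real {d | 0 ≤ d q - d p ∧ d q - d p ≤ 0 + τ} =
      ∫ d, ({d : Fin Z.n → ℝ | 0 ≤ d q - d p ∧ d q - d p ≤ 0 + τ}).indicator
        (fun _ => (1 : ℝ)) d ∂Z.μ := by
    rw [integral_indicator_const _ hm']
    simp
  rw [h1, h2, ← integral_add ((integrable_const (1 : ℝ)).indicator hm)
    ((integrable_const (1 : ℝ)).indicator hm')]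
  refine integral_mono (sft_int Z τ q p) (((integrable_const (1 : ℝ)).indicator hm).add
    ((integrable_const (1 : ℝ)).indicator hm')) fun d => ?_
  have hn1 : 0 ≤ ({d : Fin Z.n → ℝ | d q < d p}).indicator (fun _ => (1 : ℝ)) d :=
    indicator_nonneg (fun _ _ => zero_le_one) _
  have hn2 : 0 ≤ ({d : Fin Z.n → ℝ | 0 ≤ d q - d p ∧ d q - d p ≤ 0 + τ}).indicator
      (fun _ => (1 : ℝ)) d := indicator_nonneg (fun _ _ => zero_le_one) _
  simp only []
  by_cases hd : d q < d p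
  · have h3 : ({d : Fin Z.n → ℝ | d q < d p}).indicator (fun _ => (1 : ℝ)) d = 1 :=
      indicator_of_mem (s := {d : Fin Z.n → ℝ | d q < d p}) hd _
    rw [h3]
    linarith [sft_le_one τ (d q) (d p)]
  · by_cases hd2 : d q - d p ≤ 0 + τ
    · have h3 : ({d : Fin Z.n → ℝ | 0 ≤ d q - d p ∧ d q - d p ≤ 0 + τ}).indicator
          (fun _ => (1 : ℝ)) d = 1 :=
        indicator_of_mem (s := {d : Fin Z.n → ℝ | 0 ≤ d q - d p ∧ d q - d p ≤ 0 + τ})
          ⟨by linarith [not_lt.mp hd], hd2⟩ _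
      rw [h3]
      linarith [sft_le_one τ (d q) (d p)]
    · rw [sft_zero hτ (by linarith [not_le.mp hd2])]
      exact add_nonneg hn1 hn2

theorem dist_comm' {c : ℝ} (Z : KSys c) (p q : Fin Z.n) : Z.dist p q = Z.dist q p := by
  unfold KSys.dist
  refine integral_congr_ae (Filter.Eventually.of_forall fun d => ?_)
  exact abs_sub_comm _ _

/-- The mean of the difference is at least `c`. -/
theorem pair_ge (h2 : TprStmt) {c : ℝ} (hc : 0 < c) (Z : KSys c) {θ : ℝ} (hθ : 0 < θ)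
    (p q : Fin Z.n) (hpq : p ≠ q) (hp : 1 / 2 < Z.μ.real {d | d p < d q})
    (hd : θ ≤ Z.dist p q) :
    c ≤ (∫ d, sft (c * θ / 10) (d p) (d q) ∂Z.μ) - ∫ d, sft (c * θ / 10) (d q) (d p) ∂Z.μ := by
  have hτ : 0 < c * θ / 10 := by positivity
  have h3 := sft_ge Z hτ p q
  have h4 := sft_le Z hτ p q
  have h5 : c < Z.μ.real {d | d p < d q} - 1 / 2 := by
    have h := Z.nobal p q hpq
    rwa [abs_of_pos (by linarith)] at h
  have h6 : Z.μ.real {d | d q < d p} + Z.μ.real {d | d p < d q} ≤ 1 := by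
    have hm : MeasurableSet {d : Fin Z.n → ℝ | d p < d q} :=
      measurableSet_lt (measurable_pi_apply p) (measurable_pi_apply q)
    have hdis : Disjoint {d : Fin Z.n → ℝ | d q < d p} {d : Fin Z.n → ℝ | d p < d q} := by
      rw [Set.disjoint_left]
      intro d hd1 hd2
      have hd1' : d q < d p := hd1
      have hd2' : d p < d q := hd2
      exact lt_asymm hd1' hd2'
    rw [← measureReal_union hdis hm]
    exact measureReal_le_one
  have h7 : Z.μ.real {d | 0 ≤ d q - d p ∧ d q - d p ≤ 0 + c * θ / 10} ≤ c := by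
    have h := (h2 c Z q p).2.2.2 0 (c * θ / 10) hτ.le
    have hd' : θ ≤ Z.dist q p := by rwa [dist_comm']
    have h8 : Z.μ.real {d | 0 ≤ d q - d p ∧ d q - d p ≤ 0 + c * θ / 10} * θ ≤ c * θ := by
      refine (mul_le_mul_of_nonneg_left hd' measureReal_nonneg).trans (h.trans (le_of_eq ?_))
      ring
    exact le_of_mul_le_mul_right h8 hθ
  linarith

theorem abs_le' {c : ℝ} (Z : KSys c) {C : ℝ} (hC : 0 ≤ C) (p : Fin Z.n) (hp : |Z.a p| ≤ C) :
    ∫ d, |d p| ∂Z.μ ≤ 2 * C + 5 := by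
  have hi : Integrable (fun d : Fin Z.n → ℝ => |d p - ∫ e, e p ∂Z.μ|) Z.μ :=
    ((Z.int p).sub (integrable_const _)).abs
  have h1 : ∫ d, |d p| ∂Z.μ ≤ ∫ d, (|d p - ∫ e, e p ∂Z.μ| + |Z.a p|) ∂Z.μ := by
    refine integral_mono (Z.int p).abs (hi.add (integrable_const _)) fun d => ?_
    have h := abs_add_le (d p - ∫ e, e p ∂Z.μ) (Z.a p)
    have h' : d p - (∫ e, e p ∂Z.μ) + Z.a p = d p := by
      unfold KSys.a
      ring
    rw [h'] at h
    exact h
  rw [integral_add hi (integrable_const _)] at h1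
  have h2 := Z.m2 p
  have h3 : ∫ _ : Fin Z.n → ℝ, |Z.a p| ∂Z.μ = |Z.a p| := by simp
  rw [h3] at h1
  have h4 : √|∫ e, e p ∂Z.μ| ≤ √C := Real.sqrt_le_sqrt hp
  have h5 : √C ≤ C + 1 := by
    rw [Real.sqrt_le_left (by linarith)]
    nlinarith
  linarith

theorem pig (h1 : DycStmt) (h2 : TprStmt) : PigStmt := by
  intro c Z C θ M z hc hC hθ hz hzz
  obtain ⟨w, hw, hdyc⟩ := h1 M
  set B := 2 * C + 7 + 10 / (c * θ) with hB
  have hBpos : 0 < B := by positivity
  rcases Nat.eq_zero_or_pos M with hM0 | hMpos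
  · rw [hM0]
    push_cast
    rw [zero_mul]
    positivity
  have hMr : (0 : ℝ) < M := by exact_mod_cast hMpos
  have hsM : 0 < √(M : ℝ) := Real.sqrt_pos.mpr hMr
  have hss : √(M : ℝ) * √(M : ℝ) = M := Real.mul_self_sqrt hMr.le
  have hτ : 0 < c * θ / 10 := by positivity
  -- integrate the dyadic inequality
  have hint : ∫ d, (∑ i ∈ range (2 ^ M), ∑ j ∈ range (2 ^ M),
      w i j * (sft (c * θ / 10) (d (z i)) (d (z j)) - sft (c * θ / 10) (d (z j)) (d (z i)))) ∂Z.μ ≤
      ∫ d, ((√(M : ℝ) + M / √(M : ℝ)) *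
        ((∑ i ∈ range (2 ^ M), |d (z i)|) / 2 ^ M + 1 / (c * θ / 10) + 2)) ∂Z.μ := by
    refine integral_mono ?_ ?_ fun d => ?_
    · refine integrable_finsetSum _ fun i _ => integrable_finsetSum _ fun j _ => ?_
      exact ((sft_int Z _ (z i) (z j)).sub (sft_int Z _ (z j) (z i))).const_mul _
    · refine Integrable.const_mul ?_ _
      refine Integrable.add (Integrable.add (Integrable.div_const ?_ _) (integrable_const _))
        (integrable_const _)
      exact integrable_finsetSum _ fun i _ => (Z.int (z i)).abs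
    · exact hdyc (fun i => d (z i)) (√(M : ℝ)) (c * θ / 10) hsM hτ
  -- the left side
  have hleft : c * M ≤ ∫ d, (∑ i ∈ range (2 ^ M), ∑ j ∈ range (2 ^ M),
      w i j * (sft (c * θ / 10) (d (z i)) (d (z j)) -
        sft (c * θ / 10) (d (z j)) (d (z i)))) ∂Z.μ := by
    have hij : ∀ i j : ℕ, Integrable (fun d : Fin Z.n → ℝ =>
        w i j * (sft (c * θ / 10) (d (z i)) (d (z j)) -
        sft (c * θ / 10) (d (z j)) (d (z i)))) Z.μ := fun i j =>
      ((sft_int Z _ (z i) (z j)).sub (sft_int Z _ (z j) (z i))).const_mul _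
    rw [integral_finsetSum _ fun i _ => integrable_finsetSum _ fun j _ => hij i j]
    rw [← hw.sm, Finset.mul_sum]
    refine Finset.sum_le_sum fun i _ => ?_
    rw [integral_finsetSum _ fun j _ => hij i j]
    rw [Finset.mul_sum]
    refine Finset.sum_le_sum fun j _ => ?_
    rw [integral_const_mul, integral_sub (sft_int Z _ (z i) (z j)) (sft_int Z _ (z j) (z i))]
    by_cases hij : w i j = 0
    · rw [hij]
      simp
    · obtain ⟨hij1, hij2⟩ := hw.up i j hij
      obtain ⟨hne, hp, hd⟩ := hzz i j hij1 hij2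
      rw [mul_comm c]
      exact mul_le_mul_of_nonneg_left (pair_ge h2 hc Z hθ (z i) (z j) hne hp hd) (hw.nn i j)
  -- the right side
  have hright : ∫ d, ((√(M : ℝ) + M / √(M : ℝ)) *
        ((∑ i ∈ range (2 ^ M), |d (z i)|) / 2 ^ M + 1 / (c * θ / 10) + 2)) ∂Z.μ ≤
      2 * √(M : ℝ) * B := by
    have hI : Integrable (fun d : Fin Z.n → ℝ => (∑ i ∈ range (2 ^ M), |d (z i)|) / 2 ^ M)
        Z.μ := Integrable.div_const (integrable_finsetSum _ fun i _ => (Z.int (z i)).abs) _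
    have e1 : ∫ d, ((∑ i ∈ range (2 ^ M), |d (z i)|) / 2 ^ M + 1 / (c * θ / 10) + 2) ∂Z.μ =
        (∑ i ∈ range (2 ^ M), ∫ d, |d (z i)| ∂Z.μ) / 2 ^ M + 1 / (c * θ / 10) + 2 := by
      have hI2 : Integrable (fun d : Fin Z.n → ℝ =>
          (∑ i ∈ range (2 ^ M), |d (z i)|) / 2 ^ M + 1 / (c * θ / 10)) Z.μ :=
        hI.add (integrable_const _)
      rw [integral_add hI2 (integrable_const _),
        integral_add hI (integrable_const _), integral_div,
        integral_finsetSum _ fun i _ => (Z.int (z i)).abs]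
      simp
    rw [integral_const_mul, e1]
    have e2 : (∑ i ∈ range (2 ^ M), ∫ d, |d (z i)| ∂Z.μ) / 2 ^ M ≤ 2 * C + 5 := by
      rw [div_le_iff₀ (by positivity)]
      refine (Finset.sum_le_sum (g := fun _ => 2 * C + 5) fun i hi =>
        abs_le' Z hC (z i) (hz i (Finset.mem_range.mp hi))).trans (le_of_eq ?_)
      rw [Finset.sum_const, Finset.card_range, nsmul_eq_mul]
      push_cast
      ring
    have e3 : √(M : ℝ) + M / √(M : ℝ) = 2 * √(M : ℝ) := by
      rw [Real.div_sqrt]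
      ring
    have e4 : (1 : ℝ) / (c * θ / 10) = 10 / (c * θ) := by
      field_simp
    rw [e3, e4]
    refine mul_le_mul_of_nonneg_left ?_ (by positivity)
    rw [hB]
    linarith
  have hfin : c * M ≤ 2 * √(M : ℝ) * B := hleft.trans (hint.trans hright)
  have h9 : c * √(M : ℝ) ≤ 2 * B := by
    have h : (c * √(M : ℝ)) * √(M : ℝ) ≤ (2 * B) * √(M : ℝ) := by
      rw [mul_assoc, hss]
      linarith
    exact le_of_mul_le_mul_right h hsM
  have h10 : (c * √(M : ℝ)) ^ 2 ≤ (2 * B) ^ 2 :=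
    pow_le_pow_left₀ (by positivity) h9 2
  calc (M : ℝ) * c ^ 2 = (c * √(M : ℝ)) ^ 2 := by rw [mul_pow, Real.sq_sqrt hMr.le]; ring
    _ ≤ (2 * B) ^ 2 := h10
    _ = 4 * B ^ 2 := by ring

end Pool.Agent.Helper60.KS
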