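import Mathlib

/-!
Uniqueness for absolutely convergent trigonometric series.
-/

set_option autoImplicit false

open scoped InnerProductSpace ENNReal
open AddCircle

namespace Pool.Agent.Helper60.KS

instance fact01 : Fact ((0 : ℝ) < 1) := ⟨zero_lt_one⟩

theorem fourier_unique (a : ℤ → ℂ) (ha : Summable fun n => ‖a n‖) (s : Set (AddCircle (1 : ℝ)))
    (hs : Dense s) (h : ∀ θ ∈ s, HasSum (fun n : ℤ => a n * fourier n θ) 0) : ∀ n, a n = 0 := by
  have hsum : Summable fun n : ℤ => a n • (fourier n : C(AddCircle (1 : ℝ), ℂ)) := by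
    refine Summable.of_norm ?_
    refine ha.congr fun n => ?_
    rw [norm_smul, fourier_norm, mul_one]
  obtain ⟨f, hf⟩ := hsum
  have hev : ∀ θ, HasSum (fun n : ℤ => a n * fourier n θ) (f θ) := fun θ => by
    have h1 := hf.mapL (ContinuousMap.evalCLM ℂ θ)
    simpa using h1
  have hf0 : f = 0 := by
    have h2 : (f : AddCircle (1 : ℝ) → ℂ) = (0 : C(AddCircle (1 : ℝ), ℂ)) := by
      refine Continuous.ext_on hs f.continuous (0 : C(AddCircle (1 : ℝ), ℂ)).continuous ?_
      intro θ hθ
      exact (hev θ).unique (h θ hθ)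
    exact DFunLike.coe_injective h2
  intro m
  have h3 := (hf.mapL (ContinuousMap.toLp (E := ℂ) 2 (haarAddCircle (T := (1 : ℝ))) ℂ)).mapL
    (innerSL ℂ (fourierLp (T := (1 : ℝ)) 2 m))
  rw [hf0, map_zero, map_zero] at h3
  have h4 : ∀ n : ℤ, (innerSL ℂ (fourierLp (T := (1 : ℝ)) 2 m))
      ((ContinuousMap.toLp (E := ℂ) 2 (haarAddCircle (T := (1 : ℝ))) ℂ)
        (a n • (fourier n : C(AddCircle (1 : ℝ), ℂ)))) = if n = m then a n else 0 := by
    intro n
    rw [map_smul]
    have h5 := (orthonormal_iff_ite.1 (orthonormal_fourier (T := (1 : ℝ)))) m n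
    rw [innerSL_apply_apply, inner_smul_right]
    change a n * ⟪fourierLp 2 m, fourierLp 2 n⟫_ℂ = _
    rw [h5]
    by_cases hmn : n = m
    · subst hmn; simp
    · rw [if_neg hmn, if_neg (Ne.symm hmn), mul_zero]
  have h6 : HasSum (fun n : ℤ => if n = m then a n else 0) 0 := by
    have e1 := funext h4
    rw [← e1]; exact h3
  have h7 : HasSum (fun n : ℤ => if n = m then a n else 0) (a m) := by
    have h8 := hasSum_ite_eq m (a m)
    refine h8.congr_fun fun n => ?_
    by_cases hmn : n = m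
    · subst hmn; rfl
    · rw [if_neg hmn, if_neg hmn]
  exact (h7.unique h6)

end Pool.Agent.Helper60.KS
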