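import Pool.Agent.Helper60.KS.Stab
import Pool.Agent.Helper60.KS.Fourier

/-!
Adding a multiple of the bilateral shift.
-/

set_option autoImplicit false

open scoped InnerProductSpace ENNReal
open AddCircle

namespace Pool.Agent.Helper60.KS

section shift
variable (E : Type*) [NormedAddCommGroup E] [InnerProductSpace ℂ E]

omit [InnerProductSpace ℂ E] in
theorem memlp_comp_equiv (e : ℤ ≃ ℤ) (u : L2Z E) : Memℓp (fun n => u (e n)) 2 := by
  have h1 := lp.memℓp u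
  have h2 : 0 < (2 : ℝ≥0∞).toReal := by norm_num
  rw [memℓp_gen_iff h2] at h1 ⊢
  exact (Equiv.summable_iff e (f := fun n => ‖u n‖ ^ (2 : ℝ≥0∞).toReal)).2 h1

/-- The bilateral shift `(U u) n = u (n - 1)` on `ℓ²(ℤ; E)`, a unitary operator. -/
noncomputable def bilateralShift : L2Z E ≃ₗᵢ[ℂ] L2Z E where
  toFun u := ⟨fun n => u (n - 1), memlp_comp_equiv E (Equiv.subRight 1) u⟩
  invFun u := ⟨fun n => u (n + 1), memlp_comp_equiv E (Equiv.addRight 1) u⟩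
  map_add' u v := rfl
  map_smul' c u := rfl
  left_inv u := by
    ext n
    change u (n + 1 - 1) = u n
    rw [add_sub_cancel_right]
  right_inv u := by
    ext n
    change u (n - 1 + 1) = u n
    rw [sub_add_cancel]
  norm_map' u := by
    have h2 : 0 < (2 : ℝ≥0∞).toReal := by norm_num
    rw [lp.norm_eq_tsum_rpow h2, lp.norm_eq_tsum_rpow h2]
    congr 1
    exact Equiv.tsum_eq (Equiv.subRight (1 : ℤ)) (fun n => ‖u n‖ ^ (2 : ℝ≥0∞).toReal)

theorem bilateralShift_apply (u : L2Z E) (n : ℤ) : bilateralShift E u n = u (n - 1) := rfl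

end shift

theorem growth {H : Type*} [NormedAddCommGroup H] [InnerProductSpace ℂ H] [CompleteSpace H]
    (A : H →L[ℂ] H) (r : ℝ) (hr : spectralRadius ℂ A < ENNReal.ofReal r) :
    ∃ s C : ℝ, 0 < s ∧ s < r ∧ 0 < C ∧ ∀ n : ℕ, ‖A ^ n‖ ≤ C * s ^ n := by
  obtain ⟨s, hs0, hs1, hs2⟩ := ENNReal.lt_iff_exists_real_btwn.1 hr
  have hspos : 0 < s := by
    by_contra h
    push Not at h
    rw [ENNReal.ofReal_of_nonpos h] at hs1
    exact not_lt_zero hs1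
  have hsr : s < r := by
    rcases (ENNReal.ofReal_lt_ofReal_iff_of_nonneg hspos.le).1 hs2 with h
    exact h
  have hg := spectrum.pow_norm_pow_one_div_tendsto_nhds_spectralRadius A
  have hev : ∀ᶠ n : ℕ in Filter.atTop, ‖A ^ n‖ ≤ s ^ n := by
    filter_upwards [hg.eventually_lt_const hs1, Filter.eventually_ge_atTop 1] with n hn hn1
    have h1 : ‖A ^ n‖ ^ (1 / n : ℝ) < s := by
      rw [ENNReal.ofReal_lt_ofReal_iff hspos] at hn
      exact hn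
    have h2 : (‖A ^ n‖ ^ (1 / n : ℝ)) ^ n ≤ s ^ n :=
      pow_le_pow_left₀ (Real.rpow_nonneg (norm_nonneg _) _) h1.le n
    have hn0 : (n : ℝ) ≠ 0 := by positivity
    rwa [← Real.rpow_natCast (‖A ^ n‖ ^ (1 / n : ℝ)) n, ← Real.rpow_mul (norm_nonneg _),
      one_div_mul_cancel hn0, Real.rpow_one] at h2
  obtain ⟨N, hN⟩ := Filter.eventually_atTop.1 hev
  refine ⟨s, 1 + ∑ k ∈ Finset.range N, ‖A ^ k‖ / s ^ k, hspos, hsr, ?_, fun n => ?_⟩
  · have : 0 ≤ ∑ k ∈ Finset.range N, ‖A ^ k‖ / s ^ k :=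
      Finset.sum_nonneg fun k _ => by positivity
    linarith
  · have hsum : 0 ≤ ∑ k ∈ Finset.range N, ‖A ^ k‖ / s ^ k :=
      Finset.sum_nonneg fun k _ => by positivity
    have hsn : 0 < s ^ n := by positivity
    rcases lt_or_ge n N with h | h
    · have h1 : ‖A ^ n‖ / s ^ n ≤ ∑ k ∈ Finset.range N, ‖A ^ k‖ / s ^ k :=
        Finset.single_le_sum (f := fun k => ‖A ^ k‖ / s ^ k) (fun k _ => by positivity)
          (Finset.mem_range.2 h)
      rw [div_le_iff₀ hsn] at h1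
      nlinarith
    · have h1 := hN n h
      nlinarith

variable {H E : Type*} [NormedAddCommGroup H] [InnerProductSpace ℂ H]
    [NormedAddCommGroup E] [InnerProductSpace ℂ E]

theorem wfst_norm (z : WithLp 2 (H × L2Z E)) : ‖z.fst‖ ≤ ‖z‖ := WithLp.norm_fst_le _ z
theorem wsnd_norm (z : WithLp 2 (H × L2Z E)) : ‖z.snd‖ ≤ ‖z‖ := WithLp.norm_snd_le _ z

omit [InnerProductSpace ℂ E] in
theorem lp_apply_norm (u : L2Z E) (n : ℤ) : ‖u n‖ ≤ ‖u‖ := lp.norm_apply_le_norm (by norm_num) u n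

/-- The Laurent functionals. -/
theorem laurent [CompleteSpace E] (J : ℕ → H →L[ℂ] E) (m q : ℝ) (hm : 0 ≤ m) (hq : 0 < q)
    (hJ : ∀ i, ‖J i‖ ≤ m * q ^ i) (ζ : ℂ) (h1 : q < ‖ζ‖) (h2 : ‖ζ‖ < 1) :
    ∃ Λ : WithLp 2 (H × L2Z E) →L[ℂ] E, ∀ z : WithLp 2 (H × L2Z E), ∃ S1 S2 : E,
      HasSum (fun n : ℕ => ζ ^ n • z.snd (n : ℤ)) S1 ∧
      HasSum (fun i : ℕ => (ζ ^ (i + 1))⁻¹ • J i z.fst) S2 ∧ Λ z = S1 - S2 := by
  have hρ0 : 0 < ‖ζ‖ := hq.trans h1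
  let P : ℕ → WithLp 2 (H × L2Z E) →L[ℂ] E := fun n =>
    ζ ^ n • ((lp.evalCLM ℂ (fun _ : ℤ => E) 2 (n : ℤ)) ∘L (WithLp.sndL 2 ℂ H (L2Z E)))
  let Q : ℕ → WithLp 2 (H × L2Z E) →L[ℂ] E := fun i =>
    (ζ ^ (i + 1))⁻¹ • ((J i) ∘L (WithLp.fstL 2 ℂ H (L2Z E)))
  have hPa : ∀ n z, P n z = ζ ^ n • z.snd (n : ℤ) := fun n z => rfl
  have hQa : ∀ i z, Q i z = (ζ ^ (i + 1))⁻¹ • J i z.fst := fun i z => rfl
  have hPs : Summable P := by
    refine Summable.of_norm_bounded (E := WithLp 2 (H × L2Z E) →L[ℂ] E)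
      (g := fun n : ℕ => ‖ζ‖ ^ n) (summable_geometric_of_lt_one hρ0.le h2) fun n => ?_
    refine ContinuousLinearMap.opNorm_le_bound _ (by positivity) fun z => ?_
    rw [hPa, norm_smul, norm_pow]
    exact mul_le_mul_of_nonneg_left ((lp_apply_norm _ _).trans (wsnd_norm z)) (by positivity)
  have hqρ : q / ‖ζ‖ < 1 := (div_lt_one hρ0).2 h1
  have hQs : Summable Q := by
    have hgs : Summable fun i : ℕ => (‖ζ‖⁻¹ * m) * (q / ‖ζ‖) ^ i :=
      (summable_geometric_of_lt_one (by positivity) hqρ).mul_left _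
    refine Summable.of_norm_bounded (E := WithLp 2 (H × L2Z E) →L[ℂ] E) hgs fun i => ?_
    refine ContinuousLinearMap.opNorm_le_bound _ (by positivity) fun z => ?_
    rw [hQa, norm_smul, norm_inv, norm_pow]
    have h1 : ‖J i z.fst‖ ≤ m * q ^ i * ‖z‖ :=
      ((ContinuousLinearMap.le_opNorm _ _).trans
        (mul_le_mul_of_nonneg_right (hJ i) (norm_nonneg _))).trans
        (mul_le_mul_of_nonneg_left (wfst_norm z) (by positivity))
    calc (‖ζ‖ ^ (i + 1))⁻¹ * ‖J i z.fst‖ ≤ (‖ζ‖ ^ (i + 1))⁻¹ * (m * q ^ i * ‖z‖) :=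
          mul_le_mul_of_nonneg_left h1 (by positivity)
      _ = (‖ζ‖⁻¹ * m) * (q / ‖ζ‖) ^ i * ‖z‖ := by
          rw [div_pow, pow_succ, mul_inv]
          rw [div_eq_mul_inv]; ring
  refine ⟨(∑' n, P n) - ∑' i, Q i, fun z => ⟨(∑' n, P n) z, (∑' i, Q i) z, ?_, ?_, rfl⟩⟩
  · exact hPs.hasSum.mapL (ContinuousLinearMap.apply ℂ E z)
  · exact hQs.hasSum.mapL (ContinuousLinearMap.apply ℂ E z)

/-- The general theorem. -/
theorem bilateral [CompleteSpace H] [CompleteSpace E] [TopologicalSpace.SeparableSpace H]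
    [TopologicalSpace.SeparableSpace E] (A : H →L[ℂ] H) (G : H →L[ℂ] E)
    (hG : ∀ x, (∀ n : ℕ, G ((A ^ n) x) = 0) → x = 0) (r : ℝ)
    (hr : spectralRadius ℂ A < ENNReal.ofReal r) :
    CountableMasaChain (dsum A ((r : ℂ) • ((bilateralShift E : L2Z E ≃L[ℂ] L2Z E) :
      L2Z E →L[ℂ] L2Z E))) := by
  classical
  obtain ⟨s, C, hs, hsr, hC, hgr⟩ := growth A r hr
  have hr0 : 0 < r := hs.trans hsr
  have hrc : (r : ℂ) ≠ 0 := by exact_mod_cast hr0.ne'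
  obtain ⟨q, hq⟩ : ∃ q : ℝ, q = s / r := ⟨_, rfl⟩
  have hq0 : 0 < q := by rw [hq]; positivity
  have hq1 : q < 1 := by rw [hq]; exact (div_lt_one hr0).2 hsr
  obtain ⟨m, hm0, hm⟩ : ∃ m : ℝ, 0 ≤ m ∧ m = ‖G‖ * C := ⟨_, by positivity, rfl⟩
  -- the maps J
  obtain ⟨J, hJx, hJn⟩ : ∃ J : ℕ → H →L[ℂ] E, (∀ i x, J i x = ((r : ℂ) ^ i)⁻¹ • G ((A ^ i) x)) ∧
      ∀ i, ‖J i‖ ≤ m * q ^ i := by
    refine ⟨fun i => ((r : ℂ) ^ i)⁻¹ • (G ∘L (A ^ i)), fun i x => rfl, fun i => ?_⟩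
    have h1 : ‖((r : ℂ) ^ i)⁻¹ • (G ∘L (A ^ i))‖ = (r ^ i)⁻¹ * ‖G ∘L (A ^ i)‖ := by
      rw [norm_smul, norm_inv, norm_pow, Complex.norm_real, Real.norm_eq_abs, abs_of_pos hr0]
    have h2 : ‖G ∘L (A ^ i)‖ ≤ ‖G‖ * (C * s ^ i) :=
      (ContinuousLinearMap.opNorm_comp_le _ _).trans
        (mul_le_mul_of_nonneg_left (hgr i) (norm_nonneg _))
    rw [h1, hq, hm, div_pow]
    have h3 : 0 < r ^ i := by positivity
    calc (r ^ i)⁻¹ * ‖G ∘L (A ^ i)‖ ≤ (r ^ i)⁻¹ * (‖G‖ * (C * s ^ i)) :=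
          mul_le_mul_of_nonneg_left h2 (by positivity)
      _ = ‖G‖ * C * (s ^ i / r ^ i) := by rw [div_eq_mul_inv]; ring
  have hJb : ∀ i x, ‖J i x‖ ≤ m * q ^ i * ‖x‖ := fun i x =>
    (ContinuousLinearMap.le_opNorm _ _).trans (mul_le_mul_of_nonneg_right (hJn i) (norm_nonneg _))
  have hJA : ∀ i x, J i (A x) = (r : ℂ) • J (i + 1) x := fun i x => by
    rw [hJx, hJx, smul_smul]
    have h1 : (A ^ (i + 1)) x = (A ^ i) (A x) := by rw [pow_succ]; rfl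
    rw [h1]
    congr 1
    rw [pow_succ]; field_simp
  -- a circle
  obtain ⟨ρ, hρq, hρ1⟩ : ∃ ρ : ℝ, q < ρ ∧ ρ < 1 := exists_between hq1
  have hρ0 : 0 < ρ := hq0.trans hρq
  have hρc : (ρ : ℂ) ≠ 0 := by exact_mod_cast hρ0.ne'
  have hqρ : q / ρ < 1 := (div_lt_one hρ0).2 hρq
  obtain ⟨ζ, hζ⟩ : ∃ ζ : AddCircle (1 : ℝ) → ℂ, ∀ θ, ζ θ = (ρ : ℂ) * (fourier 1 θ) :=
    ⟨_, fun _ => rfl⟩
  have hf1 : ∀ (n : ℤ) (θ : AddCircle (1 : ℝ)), ‖(fourier n θ : ℂ)‖ = 1 := fun n θ => by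
    rw [fourier_apply]; exact Circle.norm_coe _
  have hζn : ∀ θ, ‖ζ θ‖ = ρ := fun θ => by
    rw [hζ, norm_mul, hf1, mul_one, Complex.norm_real, Real.norm_eq_abs, abs_of_pos hρ0]
  have hζ0 : ∀ θ, ζ θ ≠ 0 := fun θ => by
    rw [← norm_pos_iff, hζn]; exact hρ0
  have hfz : ∀ (n : ℤ) (θ : AddCircle (1 : ℝ)), (fourier n θ : ℂ) = (fourier 1 θ) ^ n :=
    fun n θ => by
      rw [fourier_apply, fourier_apply, one_zsmul, AddCircle.toCircle_zsmul]
      exact Circle.coe_zpow _ _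
  -- the Laurent functionals
  have hΛex := fun θ => laurent (H := H) (E := E) J m q hm0 hq0 hJn (ζ θ) (by rw [hζn]; exact hρq)
    (by rw [hζn]; exact hρ1)
  choose Λ S1 S2 hP1 hQ1 hΛ using hΛex
  obtain ⟨B, hBdef, hBa⟩ : ∃ B : L2Z E →L[ℂ] L2Z E, B = (r : ℂ) •
      ((bilateralShift E : L2Z E ≃L[ℂ] L2Z E) : L2Z E →L[ℂ] L2Z E) ∧
      ∀ (u : L2Z E) (n : ℤ), B u n = (r : ℂ) • u (n - 1) := ⟨_, rfl, fun u n => rfl⟩
  rw [← hBdef]
  have hT : ∀ θ (z : WithLp 2 (H × L2Z E)), (∀ i : ℕ, z.snd (-1 - (i : ℤ)) = - J i z.fst) →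
      Λ θ (dsum A B z) = ((r : ℂ) * ζ θ) • Λ θ z := by
    intro θ z hz
    have e1 : HasSum (fun n : ℕ => (ζ θ) ^ n • (dsum A B z).snd (n : ℤ))
        (((r : ℂ) * ζ θ) • S1 θ z + (r : ℂ) • z.snd (-1)) := by
      have h1 := ((hP1 θ z).const_smul ((r : ℂ) * ζ θ))
      have h2 := (hasSum_nat_add_iff (f := fun n : ℕ => (ζ θ) ^ n • (dsum A B z).snd (n : ℤ)) 1
        (g := ((r : ℂ) * ζ θ) • S1 θ z)).1 (h1.congr_fun fun n => by
          rw [dsum_snd, hBa, smul_smul, smul_smul]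
          have h3 : (((n + 1 : ℕ) : ℤ) - 1) = (n : ℤ) := by push_cast; ring
          rw [h3]; congr 1; rw [pow_succ]; ring)
      rw [Finset.range_one, Finset.sum_singleton, pow_zero, one_smul, dsum_snd, hBa] at h2
      exact h2
    have e2 : HasSum (fun i : ℕ => ((ζ θ) ^ (i + 1))⁻¹ • J i (dsum A B z).fst)
        (((r : ℂ) * ζ θ) • (S2 θ z - (ζ θ)⁻¹ • J 0 z.fst)) := by
      have h2 : HasSum (fun i : ℕ => ((ζ θ) ^ (i + 1 + 1))⁻¹ • J (i + 1) z.fst)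
          (S2 θ z - (ζ θ)⁻¹ • J 0 z.fst) := by
        rw [hasSum_nat_add_iff (f := fun i : ℕ => ((ζ θ) ^ (i + 1))⁻¹ • J i z.fst) 1]
        rw [Finset.range_one, Finset.sum_singleton, zero_add, pow_one, sub_add_cancel]
        exact hQ1 θ z
      refine (h2.const_smul ((r : ℂ) * ζ θ)).congr_fun fun i => ?_
      rw [dsum_fst, hJA, smul_smul, smul_smul]
      congr 1
      have := hζ0 θ
      rw [pow_succ (ζ θ) (i + 1)]; field_simp
    have e3 : S1 θ (dsum A B z) = ((r : ℂ) * ζ θ) • S1 θ z + (r : ℂ) • z.snd (-1) :=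
      (hP1 θ (dsum A B z)).unique e1
    have e4 : S2 θ (dsum A B z) = ((r : ℂ) * ζ θ) • (S2 θ z - (ζ θ)⁻¹ • J 0 z.fst) :=
      (hQ1 θ (dsum A B z)).unique e2
    have e5 : z.snd (-1) = - J 0 z.fst := by simpa using hz 0
    rw [hΛ, hΛ, e3, e4, e5, smul_sub, smul_sub, smul_smul, smul_neg]
    have h6 : (r : ℂ) * ζ θ * (ζ θ)⁻¹ = r := by
      rw [mul_assoc, mul_inv_cancel₀ (hζ0 θ), mul_one]
    rw [h6]; abel
  obtain ⟨θs, hθs⟩ : ∃ f : ℕ → AddCircle (1 : ℝ), DenseRange f :=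
    ⟨TopologicalSpace.denseSeq _, TopologicalSpace.denseRange_denseSeq _⟩
  refine stab A B (fun _ => (r : ℂ) • ContinuousLinearMap.id ℂ E) ?_ J ?_ ?_
    (fun j => Λ (θs j)) ?_ ?_
  · intro u n
    rw [hBa, add_sub_cancel_right]; rfl
  · intro i x
    rw [hJA]; rfl
  · intro x
    refine exists_neg _ ?_
    have h1 : Summable fun i : ℕ => (m * ‖x‖) ^ 2 * (q ^ 2) ^ i :=
      (summable_geometric_of_lt_one (by positivity) (by nlinarith)).mul_left _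
    refine Summable.of_nonneg_of_le (fun i => by positivity) (fun i => ?_) h1
    calc ‖J i x‖ ^ 2 ≤ (m * q ^ i * ‖x‖) ^ 2 := pow_le_pow_left₀ (norm_nonneg _) (hJb i x) 2
      _ = (m * ‖x‖) ^ 2 * (q ^ 2) ^ i := by ring
  · intro j
    refine ⟨(r : ℂ) * ζ (θs j), fun z hz hj i hi => ?_⟩
    rw [map_sub, map_smul, hT _ z hz]
    rcases hi.lt_or_eq with h | h
    · rw [hj i h, smul_zero, smul_zero, sub_zero]
    · subst h; rw [sub_self]
  · intro z hz hz0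
    have hlau : ∀ θ, HasSum (fun n : ℤ => (ζ θ) ^ n • z.snd n) (Λ θ z) := fun θ => by
      have h1 : HasSum (fun n : ℕ => (ζ θ) ^ (n : ℤ) • z.snd (n : ℤ)) (S1 θ z) :=
        (hP1 θ z).congr_fun fun n => by rw [zpow_natCast]
      have h2 : HasSum (fun n : ℕ => (ζ θ) ^ (-((n : ℤ) + 1)) • z.snd (-((n : ℤ) + 1)))
          (-(S2 θ z)) := by
        refine (hQ1 θ z).neg.congr_fun fun n => ?_
        have h3 : -((n : ℤ) + 1) = -1 - (n : ℤ) := by ring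
        rw [h3, hz n, ← h3, zpow_neg, smul_neg]
        have h4 : (ζ θ) ^ ((n : ℤ) + 1) = (ζ θ) ^ (n + 1) := by
          rw [← zpow_natCast]; push_cast; rfl
        rw [h4]
      have h5 := HasSum.of_nat_of_neg_add_one (f := fun n : ℤ => (ζ θ) ^ n • z.snd n) h1 h2
      rw [hΛ, sub_eq_add_neg]; exact h5
    have hcoef : ∀ (e : E) (n : ℤ), ⟪e, z.snd n⟫_ℂ = 0 := by
      intro e
      have hsum : Summable fun n : ℤ => ‖(ρ : ℂ) ^ n * ⟪e, z.snd n⟫_ℂ‖ := by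
        refine Summable.of_nat_of_neg_add_one ?_ ?_
        · refine Summable.of_nonneg_of_le (fun n => norm_nonneg _) (fun n => ?_)
            ((summable_geometric_of_lt_one hρ0.le hρ1).mul_left (‖e‖ * ‖z.snd‖))
          rw [norm_mul, zpow_natCast, norm_pow, Complex.norm_real, Real.norm_eq_abs,
            abs_of_pos hρ0]
          have h1 : ‖⟪e, z.snd (n : ℤ)⟫_ℂ‖ ≤ ‖e‖ * ‖z.snd‖ :=
            (norm_inner_le_norm _ _).trans
              (mul_le_mul_of_nonneg_left (lp_apply_norm _ _) (norm_nonneg _))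
          calc ρ ^ n * ‖⟪e, z.snd (n : ℤ)⟫_ℂ‖ ≤ ρ ^ n * (‖e‖ * ‖z.snd‖) :=
                mul_le_mul_of_nonneg_left h1 (by positivity)
            _ = ‖e‖ * ‖z.snd‖ * ρ ^ n := by ring
        · refine Summable.of_nonneg_of_le (fun n => norm_nonneg _) (fun n => ?_)
            ((summable_geometric_of_lt_one (by positivity : 0 ≤ q / ρ) hqρ).mul_left
              (‖e‖ * ((ρ⁻¹ * m) * ‖z.fst‖)))
          have h3 : -((n : ℤ) + 1) = -1 - (n : ℤ) := by ring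
          have h4 : (ρ : ℂ) ^ (-((n : ℤ) + 1)) = ((ρ : ℂ) ^ (n + 1))⁻¹ := by
            rw [zpow_neg]; congr 1
          rw [norm_mul, h4, h3, hz n, inner_neg_right, norm_neg, norm_inv, norm_pow,
            Complex.norm_real, Real.norm_eq_abs, abs_of_pos hρ0]
          have h6 : ‖⟪e, J n z.fst⟫_ℂ‖ ≤ ‖e‖ * (m * q ^ n * ‖z.fst‖) :=
            (norm_inner_le_norm _ _).trans (mul_le_mul_of_nonneg_left (hJb _ _) (norm_nonneg _))
          calc (ρ ^ (n + 1))⁻¹ * ‖⟪e, J n z.fst⟫_ℂ‖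
              ≤ (ρ ^ (n + 1))⁻¹ * (‖e‖ * (m * q ^ n * ‖z.fst‖)) :=
                mul_le_mul_of_nonneg_left h6 (by positivity)
            _ = ‖e‖ * ((ρ⁻¹ * m) * ‖z.fst‖) * (q / ρ) ^ n := by
                rw [div_pow, pow_succ, mul_inv, div_eq_mul_inv]; ring
      have hfu := fourier_unique (fun n : ℤ => (ρ : ℂ) ^ n * ⟪e, z.snd n⟫_ℂ) hsum
        (Set.range θs) hθs (by
          rintro _ ⟨j, rfl⟩
          have h1 := (hlau (θs j)).mapL (innerSL ℂ e)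
          rw [hz0 j, map_zero] at h1
          refine h1.congr_fun fun n => ?_
          rw [innerSL_apply_apply, inner_smul_right, hfz n, hζ, mul_zpow]; ring)
      intro n
      rcases mul_eq_zero.1 (hfu n) with h2 | h2
      · exact absurd h2 (zpow_ne_zero _ hρc)
      · exact h2
    have hsnd0 : z.snd = 0 := by
      ext n
      have := hcoef (z.snd n) n
      rw [inner_self_eq_zero.1 this]; rfl
    have hfst0 : z.fst = 0 := by
      refine hG _ fun n => ?_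
      have h1 : J n z.fst = 0 := by
        have h2 := hz n
        rw [hsnd0] at h2
        have h3 : (0 : L2Z E) (-1 - (n : ℤ)) = 0 := rfl
        rw [h3] at h2
        exact neg_eq_zero.1 h2.symm
      rw [hJx] at h1
      rcases smul_eq_zero.1 h1 with h3 | h3
      · exact absurd h3 (inv_ne_zero (pow_ne_zero _ hrc))
      · exact h3
    have h5 : z = WithLp.toLp 2 (z.fst, z.snd) := rfl
    rw [h5, hsnd0, hfst0]; rfl

end Pool.Agent.Helper60.KS
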