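import Mathlib

/-!
Chains of invariant subspaces from a filtration indexed by the integers.
-/

set_option autoImplicit false

open scoped InnerProductSpace

namespace Pool.Agent.Helper60.KS

/-- `A` has a countable chain of closed invariant subspaces whose projections generate a maximal
abelian self-adjoint algebra (their commutant is commutative). -/
def CountableMasaChain {H : Type*} [NormedAddCommGroup H] [InnerProductSpace ℂ H]
    (A : H →L[ℂ] H) : Prop :=
  ∃ C : Set (Submodule ℂ H), C.Countable ∧ IsChain (· ≤ ·) C ∧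
    (∀ M ∈ C, IsClosed (M : Set H) ∧ ∀ x ∈ M, A x ∈ M) ∧
    ∀ S T : H →L[ℂ] H,
      (∀ M ∈ C, (∀ x ∈ M, S x ∈ M) ∧ (∀ x ∈ Mᗮ, S x ∈ Mᗮ)) →
      (∀ M ∈ C, (∀ x ∈ M, T x ∈ M) ∧ (∀ x ∈ Mᗮ, T x ∈ Mᗮ)) →
      S * T = T * S

variable {H : Type*} [NormedAddCommGroup H] [InnerProductSpace ℂ H]

theorem orthonormal_countable [TopologicalSpace.SeparableSpace H] {ι : Type*} {b : ι → H}
    (hb : Orthonormal ℂ b) : Countable ι := by
  classical
  have hd : (Set.univ : Set ι).PairwiseDisjoint (fun i => Metric.ball (b i) (1 / 2 : ℝ)) := ?_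
  · have h := hd.countable_of_isOpen (fun i _ => Metric.isOpen_ball)
      (fun i _ => ⟨b i, Metric.mem_ball_self (by norm_num)⟩)
    exact Set.countable_univ_iff.1 h
  · intro i _ j _ hij
    refine Metric.ball_disjoint_ball ?_
    have h1 : ‖b i - b j‖ ^ 2 = 2 := by
      have h2 := @norm_sub_sq ℂ H _ _ _ (b i) (b j)
      rw [hb.2 hij, hb.1 i, hb.1 j] at h2
      rw [h2]; norm_num
    have h3 : (1 : ℝ) ≤ ‖b i - b j‖ := by
      by_contra hlt
      push Not at hlt
      have h0 := norm_nonneg (b i - b j)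
      nlinarith
    rw [dist_eq_norm]
    linarith

/-- The basic lemma. -/
theorem of_filtration [CompleteSpace H] [TopologicalSpace.SeparableSpace H] (T : H →L[ℂ] H)
    (M : ℤ → Submodule ℂ H) (hmono : Monotone M) (hcl : ∀ n, IsClosed (M n : Set H))
    (hinv : ∀ n, ∃ c : ℂ, ∀ x ∈ M (n + 1), T x - c • x ∈ M n)
    (hbot : ∀ x, (∀ n, x ∈ M n) → x = 0) (htop : ∀ x, (∀ n, x ∈ (M n)ᗮ) → x = 0) :
    CountableMasaChain T := by
  classical
  -- the gaps
  let D : ℤ → Submodule ℂ H := fun n => M (n + 1) ⊓ (M n)ᗮ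
  have hDcl : ∀ n, IsClosed (D n : Set H) := fun n => by
    have : (D n : Set H) = (M (n + 1) : Set H) ∩ ((M n)ᗮ : Set H) := rfl
    rw [this]
    exact (hcl (n + 1)).inter (Submodule.isClosed_orthogonal _)
  have hDc : ∀ n, CompleteSpace (D n) := fun n => (hDcl n).completeSpace_coe
  have hMc : ∀ n, CompleteSpace (M n) := fun n => (hcl n).completeSpace_coe
  have hex : ∀ n, ∃ (w : Set (D n)) (b : HilbertBasis w ℂ (D n)), (⇑b = ((↑) : w → D n)) :=
    fun n => exists_hilbertBasis ℂ (D n)
  choose w b hb using hex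
  -- countable index sets and injections to ℕ
  have hcount : ∀ n, Countable (w n) := fun n => by
    have h1 : Orthonormal ℂ (fun i : w n => ((b n i : D n) : H)) := by
      have := (b n).orthonormal
      exact this.comp_linearIsometry (D n).subtypeₗᵢ
    exact orthonormal_countable h1
  have hinj : ∀ n, ∃ f : w n → ℕ, Function.Injective f := fun n =>
    (hcount n).exists_injective_nat
  choose f hf using hinj
  let e : (n : ℤ) → w n → H := fun n i => ((b n i : D n) : H)
  have he1 : ∀ n i, e n i ∈ M (n + 1) := fun n i => (b n i).2.1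
  have he2 : ∀ n i, e n i ∈ (M n)ᗮ := fun n i => (b n i).2.2
  have heo : ∀ n i j, i ≠ j → ⟪e n i, e n j⟫_ℂ = 0 := fun n i j hij => by
    have := (b n).orthonormal.2 hij
    simpa [e] using this
  have hen : ∀ n i, ⟪e n i, e n i⟫_ℂ = 1 := fun n i => by
    have := (b n).orthonormal.1 i
    have h2 : ‖e n i‖ = 1 := by simpa [e] using this
    rw [inner_self_eq_norm_sq_to_K, h2]; norm_num
  -- the members of the chain
  let L : ℤ → ℕ → Submodule ℂ H := fun n k =>
    { carrier := {x | x ∈ M (n + 1) ∧ ∀ i : w n, k ≤ f n i → ⟪e n i, x⟫_ℂ = 0}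
      add_mem' := by
        rintro x y ⟨hx1, hx2⟩ ⟨hy1, hy2⟩
        refine ⟨add_mem hx1 hy1, fun i hi => ?_⟩
        rw [inner_add_right, hx2 i hi, hy2 i hi, add_zero]
      zero_mem' := ⟨zero_mem _, fun i _ => inner_zero_right _⟩
      smul_mem' := by
        rintro c x ⟨hx1, hx2⟩
        refine ⟨Submodule.smul_mem _ _ hx1, fun i hi => ?_⟩
        rw [inner_smul_right, hx2 i hi, mul_zero] }
  have hLmem : ∀ n k x, x ∈ L n k ↔ (x ∈ M (n + 1) ∧ ∀ i : w n, k ≤ f n i → ⟪e n i, x⟫_ℂ = 0) :=
    fun n k x => Iff.rfl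
  have hLcl : ∀ n k, IsClosed (L n k : Set H) := fun n k => by
    have h1 : (L n k : Set H) = (M (n + 1) : Set H) ∩
        ⋂ i : w n, {x | k ≤ f n i → ⟪e n i, x⟫_ℂ = 0} := by
      ext x
      simp only [SetLike.mem_coe, hLmem, Set.mem_inter_iff, Set.mem_iInter]
      rfl
    rw [h1]
    refine (hcl (n + 1)).inter (isClosed_iInter fun i => ?_)
    by_cases hk : k ≤ f n i
    · have h2 : {x : H | k ≤ f n i → ⟪e n i, x⟫_ℂ = 0} = {x | ⟪e n i, x⟫_ℂ = 0} := by
        ext x; exact ⟨fun h => h hk, fun h _ => h⟩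
      rw [h2]
      exact isClosed_eq (by fun_prop) continuous_const
    · have h2 : {x : H | k ≤ f n i → ⟪e n i, x⟫_ℂ = 0} = Set.univ := by
        ext x; exact ⟨fun _ => trivial, fun _ h => absurd h hk⟩
      rw [h2]; exact isClosed_univ
  have hML : ∀ n k, M n ≤ L n k := fun n k x hx =>
    ⟨hmono (by omega) hx, fun i _ => (Submodule.mem_orthogonal' (M n) (e n i)).1 (he2 n i) x hx⟩
  have hLM : ∀ n k, L n k ≤ M (n + 1) := fun n k x hx => hx.1
  have hLmono : ∀ n k k', k ≤ k' → L n k ≤ L n k' := fun n k k' hk x hx =>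
    ⟨hx.1, fun i hi => hx.2 i (hk.trans hi)⟩
  have hLinv : ∀ n k, ∀ x ∈ L n k, T x ∈ L n k := fun n k x hx => by
    obtain ⟨c, hc⟩ := hinv n
    have h1 : T x - c • x ∈ L n k := hML n k (hc x hx.1)
    have h2 := add_mem h1 (Submodule.smul_mem (L n k) c hx)
    simpa using h2
  refine ⟨Set.range (fun p : ℤ × ℕ => L p.1 p.2), Set.countable_range _, ?_, ?_, ?_⟩
  · rintro _ ⟨⟨n, k⟩, rfl⟩ _ ⟨⟨n', k'⟩, rfl⟩ _
    rcases lt_trichotomy n n' with h | h | h
    · exact Or.inl ((hLM n k).trans ((hmono (by omega : n + 1 ≤ n')).trans (hML n' k')))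
    · subst h
      rcases le_total k k' with hk | hk
      · exact Or.inl (hLmono n k k' hk)
      · exact Or.inr (hLmono n k' k hk)
    · exact Or.inr ((hLM n' k').trans ((hmono (by omega : n' + 1 ≤ n)).trans (hML n k)))
  · rintro _ ⟨⟨n, k⟩, rfl⟩
    exact ⟨hLcl n k, hLinv n k⟩
  · -- the commutant
    have key : ∀ S : H →L[ℂ] H,
        (∀ N ∈ Set.range (fun p : ℤ × ℕ => L p.1 p.2),
          (∀ x ∈ N, S x ∈ N) ∧ (∀ x ∈ Nᗮ, S x ∈ Nᗮ)) →
        ∀ n i, ∃ c : ℂ, S (e n i) = c • e n i := by
      intro S hS n i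
      have h1 : e n i ∈ L n (f n i + 1) := ⟨he1 n i, fun j hj => by
        refine heo n j i ?_
        rintro rfl
        omega⟩
      have h2 : e n i ∈ (L n (f n i))ᗮ := by
        rw [Submodule.mem_orthogonal']
        intro y hy
        exact hy.2 i le_rfl
      have h3 : S (e n i) ∈ L n (f n i + 1) := (hS _ ⟨(n, f n i + 1), rfl⟩).1 _ h1
      have h4 : S (e n i) ∈ (L n (f n i))ᗮ := (hS _ ⟨(n, f n i), rfl⟩).2 _ h2
      refine ⟨⟪e n i, S (e n i)⟫_ℂ, ?_⟩
      set y := S (e n i) with hy
      have h5 : y - ⟪e n i, y⟫_ℂ • e n i ∈ L n (f n i) := by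
        refine ⟨sub_mem h3.1 (Submodule.smul_mem _ _ (he1 n i)), fun j hj => ?_⟩
        rw [inner_sub_right, inner_smul_right]
        by_cases hji : j = i
        · subst hji
          rw [hen, mul_one, sub_self]
        · rw [heo n j i hji, mul_zero, sub_zero]
          refine h3.2 j ?_
          have : f n j ≠ f n i := fun h => hji (hf n h)
          omega
      have h6 : y - ⟪e n i, y⟫_ℂ • e n i ∈ (L n (f n i))ᗮ :=
        sub_mem h4 (Submodule.smul_mem _ _ h2)
      have h7 : y - ⟪e n i, y⟫_ℂ • e n i = 0 := by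
        have := (Submodule.mem_orthogonal _ _).1 h6 _ h5
        exact inner_self_eq_zero.1 this
      exact sub_eq_zero.1 h7
    -- totality
    have htot : ∀ x : H, (∀ n i, ⟪e n i, x⟫_ℂ = 0) → x = 0 := by
      intro x hx
      have hstep : ∀ n, ((M (n + 1)).starProjection x) = ((M n).starProjection x) := by
        intro n
        set d := (M (n + 1)).starProjection x - (M n).starProjection x with hd
        have hd1 : d ∈ M (n + 1) := sub_mem (Submodule.starProjection_apply_mem _ _)
          (hmono (by omega) (Submodule.starProjection_apply_mem _ _))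
        have hx1 : x - (M (n + 1)).starProjection x ∈ (M (n + 1))ᗮ :=
          Submodule.sub_starProjection_mem_orthogonal x
        have hx2 : x - (M n).starProjection x ∈ (M n)ᗮ :=
          Submodule.sub_starProjection_mem_orthogonal x
        have hd2 : d ∈ (M n)ᗮ := by
          have h3 : x - (M (n + 1)).starProjection x ∈ (M n)ᗮ :=
            Submodule.orthogonal_le (hmono (by omega)) hx1
          have h4 := sub_mem hx2 h3
          have h5 : d = (x - (M n).starProjection x) - (x - (M (n + 1)).starProjection x) := by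
            rw [hd]; abel
          rw [h5]; exact h4
        have hd3 : ∀ i, ⟪e n i, d⟫_ℂ = 0 := fun i => by
          have h6 : ⟪e n i, x - (M (n + 1)).starProjection x⟫_ℂ = 0 :=
            (Submodule.mem_orthogonal _ _).1 hx1 _ (he1 n i)
          have h7 : ⟪e n i, (M n).starProjection x⟫_ℂ = 0 :=
            (Submodule.mem_orthogonal' _ _).1 (he2 n i) _ (Submodule.starProjection_apply_mem _ _)
          rw [inner_sub_right, hx n i] at h6
          rw [hd, inner_sub_right, h7]
          have : ⟪e n i, (M (n + 1)).starProjection x⟫_ℂ = 0 := by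
            have := h6; simpa using this
          rw [this, sub_zero]
        have hd4 : (⟨d, hd1, hd2⟩ : D n) = 0 := by
          have h8 : (b n).repr ⟨d, hd1, hd2⟩ = 0 := by
            ext i
            rw [(b n).repr_apply_apply]
            have := hd3 i
            simpa [e] using this
          exact (LinearIsometryEquiv.map_eq_zero_iff (b n).repr).1 h8
        have hd5 : d = 0 := congrArg Subtype.val hd4
        exact sub_eq_zero.1 hd5
      have hconst : ∀ n, ((M n).starProjection x) = ((M 0).starProjection x) := by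
        intro n
        induction n using Int.induction_on with
        | zero => rfl
        | succ k ih => rw [hstep, ih]
        | pred k ih =>
          rw [← ih]
          have := hstep (-(k : ℤ) - 1)
          rw [← this]
          congr 3
          omega
      have hzero : (M 0).starProjection x = 0 := by
        refine hbot _ fun n => ?_
        rw [← hconst n]
        exact Submodule.starProjection_apply_mem _ _
      refine htop x fun n => ?_
      have h9 : x - (M n).starProjection x ∈ (M n)ᗮ :=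
        Submodule.sub_starProjection_mem_orthogonal x
      rwa [hconst n, hzero, sub_zero] at h9
    intro S R hS hR
    have hkS := key S hS
    have hkR := key R hR
    have hspan : (Submodule.span ℂ (Set.range fun p : (Σ n : ℤ, w n) => e p.1 p.2)).topologicalClosure
        = ⊤ := by
      rw [Submodule.topologicalClosure_eq_top_iff, Submodule.eq_bot_iff]
      intro x hx
      refine htot x fun n i => ?_
      exact (Submodule.mem_orthogonal _ _).1 hx _ (Submodule.subset_span ⟨⟨n, i⟩, rfl⟩)
    have hdense : Dense ((Submodule.span ℂ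
        (Set.range fun p : (Σ n : ℤ, w n) => e p.1 p.2) : Submodule ℂ H) : Set H) :=
      Submodule.dense_iff_topologicalClosure_eq_top.2 hspan
    refine ContinuousLinearMap.ext_on hdense ?_
    rintro _ ⟨⟨n, i⟩, rfl⟩
    obtain ⟨c, hc⟩ := hkS n i
    obtain ⟨c', hc'⟩ := hkR n i
    change S (R (e n i)) = R (S (e n i))
    rw [hc, hc', map_smul, map_smul, hc, hc', smul_comm]

end Pool.Agent.Helper60.KS
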