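import Mathlib

/-!
Definitions used in the statements on chains of invariant subspaces.
-/

set_option autoImplicit false

namespace Pool.Agent.Helper60.KS

section
variable {H : Type} [NormedAddCommGroup H] [InnerProductSpace ℂ H]

/-- `S` leaves invariant `M` and its orthogonal complement (it commutes with the projection). -/
def Reduces (S : H →L[ℂ] H) (M : Submodule ℂ H) : Prop :=
  (∀ x ∈ M, S x ∈ M) ∧ (∀ x ∈ Mᗮ, S x ∈ Mᗮ)

/-- The commutant of the projections onto the members of `C` is commutative, that is, these
projections generate a maximal abelian self-adjoint algebra. -/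
def GeneratesMasa (C : Set (Submodule ℂ H)) : Prop :=
  ∀ S T : H →L[ℂ] H, (∀ M ∈ C, Reduces S M) → (∀ M ∈ C, Reduces T M) → S * T = T * S

/-- `C` is a chain of closed invariant subspaces of `A`. -/
def IsInvariantChain (A : H →L[ℂ] H) (C : Set (Submodule ℂ H)) : Prop :=
  IsChain (· ≤ ·) C ∧ ∀ M ∈ C, IsClosed (M : Set H) ∧ ∀ x ∈ M, A x ∈ M

/-- `A` has a countable chain of closed invariant subspaces whose projections generate a maximal
abelian self-adjoint algebra. -/
def HasCountableMasaChain (A : H →L[ℂ] H) : Prop :=
  ∃ C : Set (Submodule ℂ H), C.Countable ∧ IsInvariantChain A C ∧ GeneratesMasa C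

end

/-- The Hilbert space direct sum of `H` and `K`. -/
def DSum (H K : Type) : Type := WithLp 2 (H × K)

namespace DSum

noncomputable instance instNACG (H K : Type) [NormedAddCommGroup H] [NormedAddCommGroup K] :
    NormedAddCommGroup (DSum H K) := WithLp.instProdNormedAddCommGroup 2 H K

noncomputable instance instIPS (H K : Type) [NormedAddCommGroup H] [InnerProductSpace ℂ H]
    [NormedAddCommGroup K] [InnerProductSpace ℂ K] : InnerProductSpace ℂ (DSum H K) :=
  WithLp.instProdInnerProductSpace

/-- first component -/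
def fst {H K : Type} (z : DSum H K) : H := WithLp.fst z

/-- second component -/
def snd {H K : Type} (z : DSum H K) : K := WithLp.snd z

end DSum

/-- `T` is the direct sum of `A` and `B`. -/
def IsDirectSum {H K : Type} [NormedAddCommGroup H] [InnerProductSpace ℂ H]
    [NormedAddCommGroup K] [InnerProductSpace ℂ K] (A : H →L[ℂ] H) (B : K →L[ℂ] K)
    (T : DSum H K →L[ℂ] DSum H K) : Prop :=
  ∀ z : DSum H K, (T z).fst = A z.fst ∧ (T z).snd = B z.snd

/-- The Hilbert space of square summable sequences indexed by the integers, with values in `E`. -/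
def BiSeq (E : Type) [NormedAddCommGroup E] : Type := lp (fun _ : ℤ => E) 2

namespace BiSeq

noncomputable instance instNACG (E : Type) [NormedAddCommGroup E] : NormedAddCommGroup (BiSeq E) :=
  lp.normedAddCommGroup

noncomputable instance instIPS (E : Type) [NormedAddCommGroup E] [InnerProductSpace ℂ E] :
    InnerProductSpace ℂ (BiSeq E) := lp.instInnerProductSpace

/-- The `n`-th term of the sequence. -/
def term {E : Type} [NormedAddCommGroup E] (f : BiSeq E) (n : ℤ) : E := f.1 n

end BiSeq

section
variable {H E : Type} [NormedAddCommGroup H] [InnerProductSpace ℂ H]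
  [NormedAddCommGroup E] [InnerProductSpace ℂ E]

/-- No nonzero vector is killed by all the maps `G A ^ n`, `n ≥ 0`. -/
def Separates (A : H →L[ℂ] H) (G : H →L[ℂ] E) : Prop :=
  ∀ x : H, (∀ n : ℕ, G ((A ^ n) x) = 0) → x = 0

/-- The spectral radius of `A` is less than `r`. -/
def RadiusLt (A : H →L[ℂ] H) (r : ℝ) : Prop := spectralRadius ℂ A < ENNReal.ofReal r

/-- The spectrum of `A` is `{0}`. -/
def IsQuasinilpotent (A : H →L[ℂ] H) : Prop := spectralRadius ℂ A = 0

/-- `z'` is the image of `z` under the direct sum of `A` and `r U`, where `U` is the bilateral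
shift `(U f) n = f (n - 1)` on the square summable sequences in `E` indexed by the integers. -/
def ShiftImage (A : H →L[ℂ] H) (r : ℝ) (z z' : DSum H (BiSeq E)) : Prop :=
  z'.fst = A z.fst ∧ ∀ n : ℤ, z'.snd.term n = (r : ℂ) • z.snd.term (n - 1)

/-- `T` is the direct sum of `A` and `r U`. -/
def IsShiftSum (A : H →L[ℂ] H) (r : ℝ) (T : DSum H (BiSeq E) →L[ℂ] DSum H (BiSeq E)) : Prop :=
  ∀ z : DSum H (BiSeq E), ShiftImage A r z (T z)

end

end Pool.Agent.Helper60.KS
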