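import Pool.Agent.Helper60.KS.Defs

/-!
A definition used in the statement on quasinilpotent operators.
-/

set_option autoImplicit false

namespace Pool.Agent.Helper60.KS

/-- The direct sum of `A` and `B` has a countable chain of closed invariant subspaces whose
projections generate a maximal abelian self-adjoint algebra. -/
def SumHasCountableMasaChain {H K : Type} [NormedAddCommGroup H] [InnerProductSpace ℂ H]
    [NormedAddCommGroup K] [InnerProductSpace ℂ K] (A : H →L[ℂ] H) (B : K →L[ℂ] K) : Prop :=
  ∃ T : DSum H K →L[ℂ] DSum H K, IsDirectSum A B T ∧ HasCountableMasaChain T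

end Pool.Agent.Helper60.KS
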