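import Pool.Agent.Helper60.KS.Chain

/-!
Diagonal operators and the factorisation of a compact operator through a semigroup of compact
diagonal operators.
-/

set_option autoImplicit false

open scoped InnerProductSpace ENNReal
open Filter Topology

namespace Pool.Agent.Helper60.KS

variable {H : Type*} [NormedAddCommGroup H] [InnerProductSpace ℂ H] {ι : Type*}

/-- clipping to `[0,1]` -/
noncomputable def clip (x : ℝ) : ℝ := max 0 (min 1 x)

theorem clip_nonneg (x : ℝ) : 0 ≤ clip x := le_max_left _ _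
theorem clip_le (x : ℝ) : clip x ≤ 1 := max_le zero_le_one (min_le_left _ _)
theorem clip_eq {x : ℝ} (h0 : 0 ≤ x) (h1 : x ≤ 1) : clip x = x := by
  unfold clip; rw [min_eq_right h1, max_eq_right h0]

theorem diag_mem (b : HilbertBasis ι ℂ H) (a : ι → ℝ) (x : H) :
    Memℓp (fun i => (clip (a i) : ℂ) * b.repr x i) 2 := by
  have h2 : 0 < (2 : ℝ≥0∞).toReal := by norm_num
  have h1 := (memℓp_gen_iff h2).1 (lp.memℓp (b.repr x))
  refine memℓp_gen (Summable.of_nonneg_of_le (fun i => by positivity) (fun i => ?_) h1)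
  refine Real.rpow_le_rpow (norm_nonneg _) ?_ (by norm_num)
  rw [norm_mul, Complex.norm_real, Real.norm_eq_abs, abs_of_nonneg (clip_nonneg _)]
  exact mul_le_of_le_one_left (norm_nonneg _) (clip_le _)

theorem basis_ext (b : HilbertBasis ι ℂ H) {x y : H} (h : ∀ i, ⟪b i, x⟫_ℂ = ⟪b i, y⟫_ℂ) : x = y := by
  apply b.repr.injective
  ext i
  rw [b.repr_apply_apply, b.repr_apply_apply, h i]

theorem basis_norm_le (b : HilbertBasis ι ℂ H) {x y : H} (c : ℝ) (hc : 0 ≤ c)
    (h : ∀ i, ‖⟪b i, x⟫_ℂ‖ ≤ c * ‖⟪b i, y⟫_ℂ‖) : ‖x‖ ≤ c * ‖y‖ := by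
  have h2 : 0 < (2 : ℝ≥0∞).toReal := by norm_num
  have h3 : (2 : ℝ≥0∞).toReal = ((2 : ℕ) : ℝ) := by norm_num
  have hsq : ∀ z : H, HasSum (fun i => ‖⟪b i, z⟫_ℂ‖ ^ 2) (‖z‖ ^ 2) := by
    intro z
    have h4 := lp.hasSum_norm h2 (b.repr z)
    rw [h3] at h4
    rw [LinearIsometryEquiv.norm_map] at h4
    simp only [Real.rpow_natCast] at h4
    refine h4.congr_fun fun i => ?_
    rw [b.repr_apply_apply]
  have h5 : ‖x‖ ^ 2 ≤ c ^ 2 * ‖y‖ ^ 2 := by
    refine hasSum_le (fun i => ?_) (hsq x) ((hsq y).mul_left (c ^ 2))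
    rw [← mul_pow]
    exact pow_le_pow_left₀ (norm_nonneg _) (h i) 2
  rw [← mul_pow] at h5
  exact le_of_sq_le_sq h5 (by positivity)

/-- The diagonal map with entries `clip (a i)`. -/
noncomputable def diagFun (b : HilbertBasis ι ℂ H) (a : ι → ℝ) (x : H) : H :=
  b.repr.symm ⟨fun i => (clip (a i) : ℂ) * b.repr x i, diag_mem b a x⟩

theorem diagFun_inner (b : HilbertBasis ι ℂ H) (a : ι → ℝ) (x : H) (i : ι) :
    ⟪b i, diagFun b a x⟫_ℂ = (clip (a i) : ℂ) * ⟪b i, x⟫_ℂ := by
  unfold diagFun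
  rw [← b.repr_apply_apply, LinearIsometryEquiv.apply_symm_apply, ← b.repr_apply_apply]

/-- The diagonal operator with entries `clip (a i)`. -/
noncomputable def diagOp (b : HilbertBasis ι ℂ H) (a : ι → ℝ) : H →L[ℂ] H :=
  LinearMap.mkContinuous
    { toFun := diagFun b a
      map_add' := fun x y => by
        refine basis_ext b fun i => ?_
        rw [diagFun_inner, inner_add_right, inner_add_right, diagFun_inner, diagFun_inner, mul_add]
      map_smul' := fun c x => by
        refine basis_ext b fun i => ?_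
        rw [diagFun_inner, inner_smul_right, RingHom.id_apply, inner_smul_right, diagFun_inner]
        ring } 1
    (fun x => by
      refine basis_norm_le b 1 zero_le_one fun i => ?_
      change ‖⟪b i, diagFun b a x⟫_ℂ‖ ≤ _
      rw [diagFun_inner, norm_mul, Complex.norm_real, Real.norm_eq_abs,
        abs_of_nonneg (clip_nonneg _)]
      exact mul_le_mul_of_nonneg_right (clip_le _) (norm_nonneg _))

theorem diagOp_inner (b : HilbertBasis ι ℂ H) (a : ι → ℝ) (x : H) (i : ι) :
    ⟪b i, diagOp b a x⟫_ℂ = (clip (a i) : ℂ) * ⟪b i, x⟫_ℂ := diagFun_inner b a x i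

theorem diagOp_norm_le (b : HilbertBasis ι ℂ H) (a : ι → ℝ) (c : ℝ) (hc : 0 ≤ c)
    (h : ∀ i, clip (a i) ≤ c) : ‖diagOp b a‖ ≤ c := by
  refine ContinuousLinearMap.opNorm_le_bound _ hc fun x => basis_norm_le b c hc fun i => ?_
  rw [diagOp_inner, norm_mul, Complex.norm_real, Real.norm_eq_abs, abs_of_nonneg (clip_nonneg _)]
  exact mul_le_mul_of_nonneg_right (h i) (norm_nonneg _)

theorem diagOp_norm_le_one (b : HilbertBasis ι ℂ H) (a : ι → ℝ) : ‖diagOp b a‖ ≤ 1 :=
  diagOp_norm_le b a 1 zero_le_one fun _ => clip_le _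

theorem diagOp_mul (b : HilbertBasis ι ℂ H) (a a' a'' : ι → ℝ)
    (h : ∀ i, clip (a i) * clip (a' i) = clip (a'' i)) (x : H) :
    diagOp b a (diagOp b a' x) = diagOp b a'' x := by
  refine basis_ext b fun i => ?_
  rw [diagOp_inner, diagOp_inner, diagOp_inner, ← mul_assoc, ← Complex.ofReal_mul, h]

theorem diagOp_self (b : HilbertBasis ι ℂ H) (a : ι → ℝ) (i : ι) :
    diagOp b a (b i) = (clip (a i) : ℂ) • b i := by
  classical
  refine basis_ext b fun j => ?_
  rw [diagOp_inner, inner_smul_right]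
  by_cases h : i = j
  · subst h; rfl
  · rw [b.orthonormal.2 (Ne.symm h), mul_zero, mul_zero]

theorem diagOp_adjoint [CompleteSpace H] (b : HilbertBasis ι ℂ H) (a : ι → ℝ) :
    ContinuousLinearMap.adjoint (diagOp b a) = diagOp b a := by
  ext x
  refine basis_ext b fun i => ?_
  rw [ContinuousLinearMap.adjoint_inner_right, diagOp_self, inner_smul_left, diagOp_inner]
  simp

theorem diagOp_finite_compact [CompleteSpace H] (b : HilbertBasis ι ℂ H) (a : ι → ℝ) (s : Finset ι)
    (hs : ∀ i ∉ s, clip (a i) = 0) : IsCompactOperator (diagOp b a) := by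
  classical
  have h1 : diagOp b a = ∑ i ∈ s, (clip (a i) : ℂ) •
      ((ContinuousLinearMap.toSpanSingleton ℂ (b i)) ∘L (innerSL ℂ (b i))) := by
    ext x
    refine basis_ext b fun j => ?_
    rw [diagOp_inner, sum_apply, inner_sum]
    have h2 : ∀ i, ⟪b j, ((clip (a i) : ℂ) • ((ContinuousLinearMap.toSpanSingleton ℂ (b i)) ∘L
        (innerSL ℂ (b i)))) x⟫_ℂ = if i = j then (clip (a j) : ℂ) * ⟪b j, x⟫_ℂ else 0 := by
      intro i
      change ⟪b j, (clip (a i) : ℂ) • (⟪b i, x⟫_ℂ • b i)⟫_ℂ = _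
      rw [inner_smul_right, inner_smul_right]
      by_cases h : i = j
      · subst h
        rw [if_pos rfl, inner_self_eq_norm_sq_to_K, b.orthonormal.1 i]; simp
      · rw [if_neg h, b.orthonormal.2 (Ne.symm h), mul_zero, mul_zero]
    rw [Finset.sum_congr rfl fun i _ => h2 i]
    by_cases hj : j ∈ s
    · rw [Finset.sum_ite_eq' s j, if_pos hj]
    · rw [Finset.sum_ite_eq' s j, if_neg hj, hs j hj]; simp
  have h3 : diagOp b a ∈ compactOperator (RingHom.id ℂ) H H := by
    rw [h1]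
    refine Submodule.sum_mem _ fun i _ => Submodule.smul_mem _ _ ?_
    have h4 : IsCompactOperator ((innerSL ℂ (b i) : H →L[ℂ] ℂ) : H → ℂ) :=
      isCompactOperator_of_locallyCompactSpace_dom (innerSL ℂ (b i) : H →L[ℂ] ℂ)
    exact h4.clm_comp (ContinuousLinearMap.toSpanSingleton ℂ (b i))
  exact h3

section tails

variable (b : HilbertBasis ι ℂ H) (f : ι → ℕ)

/-- The projection onto the basis vectors with index at least `m`. -/
noncomputable def tailP (m : ℕ) : H →L[ℂ] H := diagOp b fun i => if m ≤ f i then 1 else 0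

theorem clip_ite (p : Prop) [Decidable p] : clip (if p then 1 else 0) = if p then 1 else 0 := by
  by_cases h : p
  · rw [if_pos h]; exact clip_eq zero_le_one le_rfl
  · rw [if_neg h]; exact clip_eq le_rfl zero_le_one

theorem tailP_norm (m : ℕ) : ‖tailP b f m‖ ≤ 1 := diagOp_norm_le_one _ _

theorem tailP_adjoint [CompleteSpace H] (m : ℕ) :
    ContinuousLinearMap.adjoint (tailP b f m) = tailP b f m := diagOp_adjoint _ _

theorem tailP_tail {m n : ℕ} (h : m ≤ n) (x : H) : tailP b f n (tailP b f m x) = tailP b f n x := by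
  refine diagOp_mul b _ _ _ (fun i => ?_) x
  rw [clip_ite, clip_ite]
  by_cases h1 : n ≤ f i
  · rw [if_pos h1, if_pos (h.trans h1), one_mul]
  · rw [if_neg h1, zero_mul]

theorem tailP_tail' {m n : ℕ} (h : m ≤ n) (x : H) : tailP b f m (tailP b f n x) = tailP b f n x := by
  refine diagOp_mul b _ _ _ (fun i => ?_) x
  rw [clip_ite, clip_ite]
  by_cases h1 : n ≤ f i
  · rw [if_pos h1, if_pos (h.trans h1), one_mul]
  · rw [if_neg h1, mul_zero]

theorem tailP_to_zero (y : H) (ε : ℝ) (hε : 0 < ε) : ∃ m0, ∀ m, m0 ≤ m → ‖tailP b f m y‖ ≤ ε := by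
  classical
  have h1 := b.hasSum_repr y
  obtain ⟨s, hs⟩ := (Metric.tendsto_atTop.1 h1) ε hε
  refine ⟨s.sup f + 1, fun m hm => ?_⟩
  have h2 : tailP b f m (∑ i ∈ s, b.repr y i • b i) = 0 := by
    rw [map_sum]
    refine Finset.sum_eq_zero fun i hi => ?_
    rw [map_smul]
    have h3 : ¬ m ≤ f i := by
      have := Finset.le_sup (f := f) hi
      omega
    have h4 : tailP b f m (b i) = 0 := by
      unfold tailP
      rw [diagOp_self, clip_ite, if_neg h3]; simp
    rw [h4, smul_zero]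
  have h5 : tailP b f m y = tailP b f m (y - ∑ i ∈ s, b.repr y i • b i) := by
    rw [map_sub, h2, sub_zero]
  rw [h5]
  have h6 := hs s le_rfl
  rw [dist_eq_norm, norm_sub_rev] at h6
  calc ‖tailP b f m (y - ∑ i ∈ s, b.repr y i • b i)‖
      ≤ 1 * ‖y - ∑ i ∈ s, b.repr y i • b i‖ := ((tailP b f m).le_opNorm _).trans
        (mul_le_mul_of_nonneg_right (tailP_norm b f m) (norm_nonneg _))
    _ ≤ ε := by rw [one_mul]; exact h6.le

theorem tailP_compact (A : H →L[ℂ] H) (hA : IsCompactOperator A) (ε : ℝ) (hε : 0 < ε) :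
    ∃ m0, ∀ m, m0 ≤ m → ‖(tailP b f m) ∘L A‖ ≤ ε := by
  classical
  have hK : IsCompact (closure (A '' Metric.closedBall 0 1)) :=
    hA.isCompact_closure_image_closedBall 1
  obtain ⟨t, _, ht⟩ := hK.finite_cover_balls (half_pos hε)
  choose g hg using fun y : H => tailP_to_zero b f y (ε / 2) (half_pos hε)
  obtain ⟨htfin, hcov⟩ := ht
  refine ⟨htfin.toFinset.sup g, fun m hm => ?_⟩
  refine ContinuousLinearMap.opNorm_le_of_unit_norm (𝕜 := ℂ) hε.le fun x hx => ?_
  have hx1 : A x ∈ closure (A '' Metric.closedBall 0 1) := by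
    refine subset_closure ⟨x, ?_, rfl⟩
    rw [Metric.mem_closedBall, dist_zero_right, hx]
  obtain ⟨y, hy, hxy⟩ := Set.mem_iUnion₂.1 (hcov hx1)
  have h1 : ‖tailP b f m y‖ ≤ ε / 2 := hg y m ((Finset.le_sup (htfin.mem_toFinset.2 hy)).trans hm)
  have h2 : ‖A x - y‖ < ε / 2 := by rw [← dist_eq_norm]; exact hxy
  have h3 : ((tailP b f m) ∘L A) x = tailP b f m (A x - y) + tailP b f m y := by
    rw [← map_add, sub_add_cancel]; rfl
  rw [h3]
  have h4 : ‖tailP b f m (A x - y)‖ ≤ ‖A x - y‖ := by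
    have := ((tailP b f m).le_opNorm (A x - y)).trans
      (mul_le_mul_of_nonneg_right (tailP_norm b f m) (norm_nonneg _))
    rwa [one_mul] at this
  calc ‖tailP b f m (A x - y) + tailP b f m y‖
      ≤ ‖tailP b f m (A x - y)‖ + ‖tailP b f m y‖ := norm_add_le _ _
    _ ≤ ε / 2 + ε / 2 := add_le_add (h4.trans h2.le) h1
    _ = ε := add_halves ε

include b in
theorem adjoint_compact [CompleteSpace H] (hf : Function.Injective f) (A : H →L[ℂ] H)
    (hA : IsCompactOperator A) : IsCompactOperator (ContinuousLinearMap.adjoint A) := by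
  classical
  have hcut : ∀ m : ℕ, IsCompactOperator (diagOp b fun i => if f i < m then 1 else 0) := by
    intro m
    have hfin : (f ⁻¹' {n | n < m}).Finite := (Set.finite_lt_nat m).preimage hf.injOn
    refine diagOp_finite_compact b _ hfin.toFinset fun i hi => ?_
    rw [Set.Finite.mem_toFinset] at hi
    have h1 : ¬ f i < m := hi
    simp only [if_neg h1]
    exact clip_eq le_rfl zero_le_one
  have hex : ∀ j : ℕ, ∃ m, ‖(tailP b f m) ∘L A‖ ≤ 1 / (j + 1) := fun j => by
    obtain ⟨m, hm⟩ := tailP_compact b f A hA (1 / (j + 1)) (by positivity)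
    exact ⟨m, hm m le_rfl⟩
  choose m hm using hex
  refine isCompactOperator_of_tendsto (l := atTop)
    (F := fun j : ℕ => (ContinuousLinearMap.adjoint A) ∘L
      (diagOp b fun i => if f i < m j then 1 else 0)) ?_
    (Eventually.of_forall fun j => (hcut (m j)).clm_comp (ContinuousLinearMap.adjoint A))
  rw [tendsto_iff_norm_sub_tendsto_zero]
  refine squeeze_zero (fun _ => norm_nonneg _) (fun j => ?_)
    (tendsto_one_div_add_atTop_nhds_zero_nat (𝕜 := ℝ))
  have h1 : (ContinuousLinearMap.adjoint A) ∘L (diagOp b fun i => if f i < m j then 1 else 0) -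
      ContinuousLinearMap.adjoint A = -(ContinuousLinearMap.adjoint ((tailP b f (m j)) ∘L A)) := by
    rw [ContinuousLinearMap.adjoint_comp, tailP_adjoint]
    ext x
    have h2 : (diagOp b fun i => if f i < m j then 1 else 0) x - x = - tailP b f (m j) x := by
      refine basis_ext b fun i => ?_
      rw [inner_sub_right, inner_neg_right, diagOp_inner]
      unfold tailP
      rw [diagOp_inner, clip_ite, clip_ite]
      by_cases h : f i < m j
      · rw [if_pos h, if_neg (by omega)]; simp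
      · rw [if_neg h, if_pos (by omega)]; simp
    change ContinuousLinearMap.adjoint A ((diagOp b fun i => if f i < m j then 1 else 0) x) -
      ContinuousLinearMap.adjoint A x = -(ContinuousLinearMap.adjoint A (tailP b f (m j) x))
    rw [← map_sub, h2, map_neg]
  rw [h1, norm_neg, LinearIsometryEquiv.norm_map]
  exact hm j

/-- Factorisation of one operator through the diagonal semigroup. -/
theorem factor (κ : ℕ → ℕ) (hκ : ∀ k, ∃ n, k ≤ κ n) (A : H →L[ℂ] H) [CompleteSpace H] (C : ℝ)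
    (hC : 0 ≤ C) (h : ∀ n k, k ≤ κ n → ‖A ∘L (tailP b f n)‖ ≤ C * (1 / 4) ^ k) :
    ∃ A1 : H →L[ℂ] H, ∀ x, A x = A1 (diagOp b (fun i => (1 / 2 : ℝ) ^ (κ (f i))) x) := by
  classical
  let D : ℕ → H →L[ℂ] H := fun k => diagOp b fun i => if κ (f i) = k then 1 else 0
  let R : ℕ → H →L[ℂ] H := fun k => diagOp b fun i => if k ≤ κ (f i) then 1 else 0
  have hsub : ∀ (k : ℕ) (a : ι → ℝ), (∀ i, clip (a i) ≠ 0 → k ≤ κ (f i)) →
      ‖A ∘L (diagOp b a)‖ ≤ C * (1 / 4) ^ k := by
    intro k a ha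
    set n0 := Nat.find (hκ k) with hn0
    have hn1 : k ≤ κ n0 := Nat.find_spec (hκ k)
    have hn2 : ∀ n, k ≤ κ n → n0 ≤ n := fun n hn => Nat.find_min' (hκ k) hn
    have h1 : A ∘L (diagOp b a) = (A ∘L (tailP b f n0)) ∘L (diagOp b a) := by
      ext x
      change A (diagOp b a x) = A (tailP b f n0 (diagOp b a x))
      congr 1
      refine (diagOp_mul b _ _ _ (fun i => ?_) x).symm
      rw [clip_ite]
      by_cases h2 : n0 ≤ f i
      · rw [if_pos h2, one_mul]
      · rw [if_neg h2, zero_mul]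
        by_contra h3
        exact h2 (hn2 _ (ha i (Ne.symm h3)))
    rw [h1]
    calc ‖(A ∘L (tailP b f n0)) ∘L (diagOp b a)‖
        ≤ ‖A ∘L (tailP b f n0)‖ * ‖diagOp b a‖ := ContinuousLinearMap.opNorm_comp_le _ _
      _ ≤ (C * (1 / 4) ^ k) * 1 := mul_le_mul (h n0 k hn1) (diagOp_norm_le_one _ _)
          (norm_nonneg _) (by positivity)
      _ = C * (1 / 4) ^ k := mul_one _
  have hDn : ∀ k, ‖A ∘L D k‖ ≤ C * (1 / 4) ^ k := fun k => hsub k _ fun i hi => by
    by_contra h1
    refine hi ?_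
    rw [clip_ite, if_neg (by omega)]
  have hRn : ∀ k, ‖A ∘L R k‖ ≤ C * (1 / 4) ^ k := fun k => hsub k _ fun i hi => by
    by_contra h1
    refine hi ?_
    rw [clip_ite, if_neg h1]
  have hsum : Summable fun k : ℕ => ((2 : ℂ) ^ k) • (A ∘L D k) := by
    have hg : Summable fun k : ℕ => C * (1 / 2 : ℝ) ^ k :=
      (summable_geometric_of_lt_one (by norm_num) (by norm_num)).mul_left _
    refine Summable.of_norm_bounded (E := H →L[ℂ] H) hg fun k => ?_
    rw [norm_smul, norm_pow]
    have h1 : ‖(2 : ℂ)‖ = 2 := by norm_num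
    rw [h1]
    calc (2 : ℝ) ^ k * ‖A ∘L D k‖ ≤ 2 ^ k * (C * (1 / 4) ^ k) :=
          mul_le_mul_of_nonneg_left (hDn k) (by positivity)
      _ = C * (1 / 2) ^ k := by
          rw [mul_left_comm, ← mul_pow]; norm_num
  refine ⟨∑' k, ((2 : ℂ) ^ k) • (A ∘L D k), fun x => ?_⟩
  set y := diagOp b (fun i => (1 / 2 : ℝ) ^ (κ (f i))) x with hy
  have h1 : HasSum (fun k : ℕ => ((2 : ℂ) ^ k) • A (D k y))
      ((∑' k, ((2 : ℂ) ^ k) • (A ∘L D k)) y) :=
    hsum.hasSum.mapL (ContinuousLinearMap.apply ℂ H y)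
  have hDy : ∀ k, ((2 : ℂ) ^ k) • A (D k y) = A (D k x) := by
    intro k
    rw [← map_smul]
    congr 1
    refine basis_ext b fun i => ?_
    rw [inner_smul_right]
    simp only [D, hy]
    rw [diagOp_inner, diagOp_inner, diagOp_inner, clip_ite]
    by_cases h2 : κ (f i) = k
    · rw [if_pos h2, h2, clip_eq (by positivity) (pow_le_one₀ (by norm_num) (by norm_num))]
      have h9 : (2 : ℂ) ^ k * (1 / 2) ^ k = 1 := by rw [← mul_pow]; norm_num
      push_cast
      linear_combination ⟪b i, x⟫_ℂ * h9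
    · rw [if_neg h2]; simp
  have h2 : HasSum (fun k : ℕ => A (D k x)) ((∑' k, ((2 : ℂ) ^ k) • (A ∘L D k)) y) :=
    h1.congr_fun fun k => (hDy k).symm
  have hpart : ∀ N, ∑ k ∈ Finset.range N, D k x = x - R N x := by
    intro N
    induction N with
    | zero =>
      rw [Finset.sum_range_zero]
      have h3 : R 0 x = x := by
        refine basis_ext b fun i => ?_
        simp only [R]
        rw [diagOp_inner, clip_ite, if_pos (Nat.zero_le _)]; simp
      rw [h3, sub_self]
    | succ N ih =>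
      rw [Finset.sum_range_succ, ih]
      have h3 : D N x + R (N + 1) x = R N x := by
        refine basis_ext b fun i => ?_
        simp only [R, D]
        rw [inner_add_right, diagOp_inner, diagOp_inner, diagOp_inner, clip_ite, clip_ite, clip_ite]
        rcases lt_trichotomy (κ (f i)) N with h4 | h4 | h4
        · rw [if_neg (by omega), if_neg (by omega), if_neg (by omega)]; simp
        · rw [if_pos h4, if_neg (by omega), if_pos (by omega)]; simp
        · rw [if_neg (by omega), if_pos (by omega), if_pos (by omega)]; simp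
      rw [← h3]; abel
  have h3 : Tendsto (fun N => ∑ k ∈ Finset.range N, A (D k x)) atTop (𝓝 (A x)) := by
    rw [tendsto_iff_norm_sub_tendsto_zero]
    have h4 : Tendsto (fun N : ℕ => C * (1 / 4 : ℝ) ^ N * ‖x‖) atTop (𝓝 0) := by
      have := ((tendsto_pow_atTop_nhds_zero_of_lt_one (by norm_num : (0 : ℝ) ≤ 1 / 4)
        (by norm_num)).const_mul C).mul_const ‖x‖
      simpa using this
    refine squeeze_zero (fun _ => norm_nonneg _) (fun N => ?_) h4
    rw [← map_sum, hpart, map_sub]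
    have h5 : A x - A (R N x) - A x = -((A ∘L R N) x) := by
      change A x - A (R N x) - A x = -(A (R N x))
      abel
    rw [h5, norm_neg]
    exact ((A ∘L R N).le_opNorm x).trans (mul_le_mul_of_nonneg_right (hRn N) (norm_nonneg _))
  exact tendsto_nhds_unique h3 h2.tendsto_sum_nat

end tails

/-- The semigroup attached to a compact operator. -/
theorem exists_semigroup [CompleteSpace H] [TopologicalSpace.SeparableSpace H] (A : H →L[ℂ] H)
    (hA : IsCompactOperator A) :
    ∃ (Gf : ℝ → H →L[ℂ] H) (A1 A2 : H →L[ℂ] H), (∀ x, Gf 1 x = x) ∧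
      (∀ θ φ : ℝ, 0 < θ → θ ≤ 1 → 0 < φ → φ ≤ 1 → ∀ x, Gf θ (Gf φ x) = Gf (θ * φ) x) ∧
      (∀ θ : ℝ, 0 < θ → θ ≤ 1 → ‖Gf θ‖ ≤ 1) ∧
      (∀ x, A x = A1 (Gf (1 / 2) x)) ∧ (∀ x, A x = Gf (1 / 2) (A2 x)) ∧
      (∀ θ : ℝ, 0 < θ → θ < 1 → IsCompactOperator (Gf θ)) := by
  classical
  obtain ⟨s, b, hb⟩ := exists_hilbertBasis ℂ H
  have hcount : Countable s := orthonormal_countable b.orthonormal
  obtain ⟨f, hf⟩ := hcount.exists_injective_nat
  have hAd : IsCompactOperator (ContinuousLinearMap.adjoint A) := adjoint_compact b f hf A hA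
  set C := ‖A‖ with hC
  let P : ℕ → ℕ → Prop := fun k n => ∀ m, n ≤ m → ‖(tailP b f m) ∘L A‖ ≤ C * (1 / 4) ^ k ∧
    ‖A ∘L (tailP b f m)‖ ≤ C * (1 / 4) ^ k
  have hP0 : ∀ n, P 0 n := fun n m _ => by
    rw [pow_zero, mul_one]
    constructor
    · calc ‖(tailP b f m) ∘L A‖ ≤ ‖tailP b f m‖ * ‖A‖ := ContinuousLinearMap.opNorm_comp_le _ _
        _ ≤ 1 * ‖A‖ := mul_le_mul_of_nonneg_right (tailP_norm b f m) (norm_nonneg _)
        _ = C := one_mul _
    · calc ‖A ∘L (tailP b f m)‖ ≤ ‖A‖ * ‖tailP b f m‖ := ContinuousLinearMap.opNorm_comp_le _ _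
        _ ≤ ‖A‖ * 1 := mul_le_mul_of_nonneg_left (tailP_norm b f m) (norm_nonneg _)
        _ = C := mul_one _
  have hadj : ∀ m, ‖A ∘L (tailP b f m)‖ = ‖(tailP b f m) ∘L (ContinuousLinearMap.adjoint A)‖ := by
    intro m
    rw [← LinearIsometryEquiv.norm_map ContinuousLinearMap.adjoint (A ∘L (tailP b f m)),
      ContinuousLinearMap.adjoint_comp, tailP_adjoint]
  have hPex : ∀ k, ∃ n, P k n := by
    intro k
    rcases (norm_nonneg A).eq_or_lt with h0 | h0
    · refine ⟨0, fun m hm => ?_⟩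
      have h1 := hP0 0 m hm
      rw [pow_zero, mul_one] at h1
      have h2 : C = 0 := h0.symm
      rw [h2] at h1 ⊢
      rw [zero_mul]; exact h1
    · have hε : 0 < C * (1 / 4 : ℝ) ^ k := by positivity
      obtain ⟨m1, hm1⟩ := tailP_compact b f A hA _ hε
      obtain ⟨m2, hm2⟩ := tailP_compact b f _ hAd _ hε
      refine ⟨max m1 m2, fun m hm => ⟨hm1 m ((le_max_left _ _).trans hm), ?_⟩⟩
      rw [hadj]
      exact hm2 m ((le_max_right _ _).trans hm)
  have hPmono : ∀ k n n', n ≤ n' → P k n → P k n' := fun k n n' h hP m hm => hP m (h.trans hm)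
  have hPk : ∀ k k' n, k ≤ k' → P k' n → P k n := fun k k' n h hP m hm => by
    have h1 : C * (1 / 4 : ℝ) ^ k' ≤ C * (1 / 4) ^ k :=
      mul_le_mul_of_nonneg_left (pow_le_pow_of_le_one (by norm_num) (by norm_num) h)
        (norm_nonneg _)
    exact ⟨(hP m hm).1.trans h1, (hP m hm).2.trans h1⟩
  let κ : ℕ → ℕ := fun n => Nat.findGreatest (fun k => P k n) n
  have hκspec : ∀ n, P (κ n) n := fun n =>
    Nat.findGreatest_spec (P := fun k => P k n) (Nat.zero_le n) (hP0 n)
  have hκev : ∀ k, ∃ N, ∀ n, N ≤ n → k ≤ κ n := by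
    intro k
    obtain ⟨N, hN⟩ := hPex k
    exact ⟨max N k, fun n hn => Nat.le_findGreatest ((le_max_right N k).trans hn)
      (hPmono k N n ((le_max_left N k).trans hn) hN)⟩
  have hκ : ∀ k, ∃ n, k ≤ κ n := fun k => by
    obtain ⟨N, hN⟩ := hκev k
    exact ⟨N, hN N le_rfl⟩
  have hbound : ∀ n k, k ≤ κ n → ‖A ∘L (tailP b f n)‖ ≤ C * (1 / 4) ^ k := fun n k hk =>
    (hPk k (κ n) n hk (hκspec n) n le_rfl).2
  have hbound' : ∀ n k, k ≤ κ n →
      ‖(ContinuousLinearMap.adjoint A) ∘L (tailP b f n)‖ ≤ C * (1 / 4) ^ k := fun n k hk => by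
    have h1 := (hPk k (κ n) n hk (hκspec n) n le_rfl).1
    rwa [← LinearIsometryEquiv.norm_map ContinuousLinearMap.adjoint ((tailP b f n) ∘L A),
      ContinuousLinearMap.adjoint_comp, tailP_adjoint] at h1
  obtain ⟨A1, hA1⟩ := factor b f κ hκ A C (norm_nonneg _) hbound
  obtain ⟨A2, hA2⟩ := factor b f κ hκ (ContinuousLinearMap.adjoint A) C (norm_nonneg _) hbound'
  let Gf : ℝ → H →L[ℂ] H := fun θ => diagOp b fun i => θ ^ (κ (f i))
  have hcl : ∀ θ : ℝ, 0 < θ → θ ≤ 1 → ∀ i, clip (θ ^ (κ (f i))) = θ ^ (κ (f i)) :=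
    fun θ h0 h1 i => clip_eq (by positivity) (pow_le_one₀ h0.le h1)
  refine ⟨Gf, A1, ContinuousLinearMap.adjoint A2, fun x => ?_, ?_, fun θ _ _ =>
    diagOp_norm_le_one _ _, hA1, fun x => ?_, ?_⟩
  · refine basis_ext b fun i => ?_
    simp only [Gf]
    rw [diagOp_inner, hcl 1 one_pos le_rfl, one_pow]; simp
  · intro θ φ h1 h2 h3 h4 x
    refine diagOp_mul b _ _ _ (fun i => ?_) x
    rw [hcl θ h1 h2, hcl φ h3 h4, hcl (θ * φ) (by positivity) (mul_le_one₀ h2 h3.le h4), mul_pow]
  · have h1 : ContinuousLinearMap.adjoint A =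
        A2 ∘L (diagOp b (fun i => (1 / 2 : ℝ) ^ (κ (f i)))) := by
      ext y; exact hA2 y
    have h2 : A = (diagOp b (fun i => (1 / 2 : ℝ) ^ (κ (f i)))) ∘L
        (ContinuousLinearMap.adjoint A2) := by
      have h3 := congrArg ContinuousLinearMap.adjoint h1
      rwa [ContinuousLinearMap.adjoint_adjoint, ContinuousLinearMap.adjoint_comp,
        diagOp_adjoint] at h3
    exact DFunLike.congr_fun h2 x
  · intro θ h0 h1
    have hex : ∀ j : ℕ, ∃ m : ℕ, ∀ n, m ≤ n → θ ^ (κ n) ≤ 1 / (j + 1) := by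
      intro j
      obtain ⟨k, hk⟩ := exists_pow_lt_of_lt_one (by positivity : (0 : ℝ) < 1 / (j + 1)) h1
      obtain ⟨N, hN⟩ := hκev k
      exact ⟨N, fun n hn => (pow_le_pow_of_le_one h0.le h1.le (hN n hn)).trans hk.le⟩
    choose m hm using hex
    refine isCompactOperator_of_tendsto (l := atTop)
      (F := fun j : ℕ => diagOp b fun i => if f i < m j then θ ^ (κ (f i)) else 0) ?_
      (Eventually.of_forall fun j => ?_)
    · rw [tendsto_iff_norm_sub_tendsto_zero]
      refine squeeze_zero (fun _ => norm_nonneg _) (fun j => ?_)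
        (tendsto_one_div_add_atTop_nhds_zero_nat (𝕜 := ℝ))
      refine ContinuousLinearMap.opNorm_le_bound _ (by positivity) fun x =>
        basis_norm_le b _ (by positivity) fun i => ?_
      have h2 : (diagOp b (fun i => if f i < m j then θ ^ (κ (f i)) else 0) - Gf θ) x =
        diagOp b (fun i => if f i < m j then θ ^ (κ (f i)) else 0) x - Gf θ x := rfl
      rw [h2, inner_sub_right]
      simp only [Gf]
      rw [diagOp_inner, diagOp_inner, hcl θ h0 h1.le]
      by_cases h3 : f i < m j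
      · rw [if_pos h3, hcl θ h0 h1.le, sub_self, norm_zero]; positivity
      · rw [if_neg h3, clip_eq le_rfl zero_le_one, Complex.ofReal_zero, zero_mul, zero_sub,
          norm_neg, norm_mul, Complex.norm_real, Real.norm_eq_abs,
          abs_of_nonneg (by positivity : 0 ≤ θ ^ (κ (f i)))]
        exact mul_le_mul_of_nonneg_right (hm j _ (by omega)) (norm_nonneg _)
    · have hfin : (f ⁻¹' {n | n < m j}).Finite := (Set.finite_lt_nat (m j)).preimage hf.injOn
      refine diagOp_finite_compact b _ hfin.toFinset fun i hi => ?_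
      rw [Set.Finite.mem_toFinset] at hi
      have h1 : ¬ f i < m j := hi
      simp only [if_neg h1]
      exact clip_eq le_rfl zero_le_one

end Pool.Agent.Helper60.KS
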