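import Pool.Agent.Helper89.KS.Goals

/-!
# The Kahn-Saks conjecture, project KS: PSF
-/

namespace Pool.Agent.Helper60.KS

open Finset MeasureTheory Pool.Agent.Helper89.GP Pool.Agent.Helper89.KS

theorem ps_eq {n : ℕ} (e : Fin n → ℝ) (i : Fin n) : ps e i = ∑ j ∈ Finset.Iic i, e j := by
  unfold ps
  rw [← Finset.sum_filter]
  refine Finset.sum_congr ?_ fun _ _ => rfl
  ext j
  simp

theorem ps_sub {n : ℕ} (e : Fin n → ℝ) {i j : Fin n} (h : i ≤ j) :
    ps e j - ps e i = ∑ l ∈ Finset.Ioc i j, e l := by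
  rw [ps_eq, ps_eq]
  have h1 : Finset.Iic j = Finset.Iic i ∪ Finset.Ioc i j := by
    ext l
    simp only [Finset.mem_union, Finset.mem_Iic, Finset.mem_Ioc]
    constructor
    · intro hl
      rcases le_or_gt l i with h2 | h2
      · exact Or.inl h2
      · exact Or.inr ⟨h2, hl⟩
    · rintro (h2 | h2)
      · exact h2.trans h
      · exact h2.2
  have h2 : Disjoint (Finset.Iic i) (Finset.Ioc i j) := by
    rw [Finset.disjoint_left]
    intro l hl hl'
    rw [Finset.mem_Iic] at hl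
    rw [Finset.mem_Ioc] at hl'
    exact absurd hl (not_le.mpr hl'.1)
  rw [h1, Finset.sum_union h2]
  ring

theorem card_Ioc' {n : ℕ} {i j : Fin n} (h : i ≤ j) :
    ((Finset.Ioc i j).card : ℝ) = ((j : ℕ) : ℝ) - ((i : ℕ) : ℝ) := by
  rw [Fin.card_Ioc]
  rw [Nat.cast_sub (Fin.le_def.mp h)]

theorem ps_sub' {n : ℕ} (e : Fin n → ℝ) {i j : Fin n} (h : i ≤ j) :
    ps e j - ps e i - (((j : ℕ) : ℝ) - ((i : ℕ) : ℝ)) = ∑ l ∈ Finset.Ioc i j, (e l - 1) := by
  rw [ps_sub e h, Finset.sum_sub_distrib, Finset.sum_const, nsmul_eq_mul, mul_one, card_Ioc' h]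

/-- The square of the deviation. -/
theorem sq_eq {n : ℕ} (i j : Fin n) : ∃ J : Finset (Fin n),
    (∀ e : Fin n → ℝ, (ps e j - ps e i - (((j : ℕ) : ℝ) - ((i : ℕ) : ℝ))) ^ 2 =
      (∑ l ∈ J, (e l - 1)) ^ 2) ∧ (J.card : ℝ) = |((j : ℕ) : ℝ) - ((i : ℕ) : ℝ)| := by
  rcases le_total i j with h | h
  · refine ⟨Finset.Ioc i j, fun e => by rw [ps_sub' e h], ?_⟩
    rw [card_Ioc' h, abs_of_nonneg]
    have : (i : ℕ) ≤ (j : ℕ) := Fin.le_def.mp h
    have h' : ((i : ℕ) : ℝ) ≤ ((j : ℕ) : ℝ) := by exact_mod_cast this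
    linarith
  · refine ⟨Finset.Ioc j i, fun e => ?_, ?_⟩
    · rw [← ps_sub' e h]
      ring
    · rw [card_Ioc' h, abs_of_nonpos]
      · ring
      · have : (j : ℕ) ≤ (i : ℕ) := Fin.le_def.mp h
        have h' : ((j : ℕ) : ℝ) ≤ ((i : ℕ) : ℝ) := by exact_mod_cast this
        linarith

theorem psf (h1 : EnfStmt) : PsfStmt := by
  intro n i j
  obtain ⟨hprob, hpos, hint, hsq⟩ := h1 n
  have hps : ∀ i : Fin n, Integrable (fun e : Fin n → ℝ => ps e i) (En n) := by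
    intro i
    have h2 : (fun e : Fin n → ℝ => ps e i) = fun e => ∑ j ∈ Finset.Iic i, e j := by
      funext e
      exact ps_eq e i
    rw [h2]
    exact integrable_finsetSum _ fun j _ => (hint j).1
  obtain ⟨J, hJ, hJc⟩ := sq_eq i j
  have hJ' : (fun e : Fin n → ℝ => (ps e j - ps e i - (((j : ℕ) : ℝ) - ((i : ℕ) : ℝ))) ^ 2) =
      fun e => (∑ l ∈ J, (e l - 1)) ^ 2 := by
    funext e
    exact hJ e
  have hI2 : Integrable (fun e : Fin n → ℝ =>
      (ps e j - ps e i - (((j : ℕ) : ℝ) - ((i : ℕ) : ℝ))) ^ 2) (En n) := by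
    rw [hJ']
    exact (hsq J).1
  have hE2 : ∫ e, (ps e j - ps e i - (((j : ℕ) : ℝ) - ((i : ℕ) : ℝ))) ^ 2 ∂En n =
      |((j : ℕ) : ℝ) - ((i : ℕ) : ℝ)| := by
    rw [hJ', (hsq J).2, hJc]
  refine ⟨⟨hps i, ?_⟩, ⟨hI2, hE2⟩, ?_, ?_⟩
  · have h2 : (fun e : Fin n → ℝ => ps e i) = fun e => ∑ j ∈ Finset.Iic i, e j := by
      funext e
      exact ps_eq e i
    rw [h2, integral_finsetSum _ fun j _ => (hint j).1]
    rw [Finset.sum_congr rfl fun j _ => (hint j).2, Finset.sum_const, Fin.card_Iic,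
      nsmul_eq_mul, mul_one]
    push_cast
    ring
  · rcases eq_or_ne i j with hij | hij
    · subst hij
      simp
    · have hm : 0 < |((j : ℕ) : ℝ) - ((i : ℕ) : ℝ)| := by
        rw [abs_pos, sub_ne_zero]
        intro h2
        apply hij
        have h3 : (j : ℕ) = (i : ℕ) := by exact_mod_cast h2
        exact (Fin.ext h3).symm
      have hs : 0 < √|((j : ℕ) : ℝ) - ((i : ℕ) : ℝ)| := Real.sqrt_pos.mpr hm
      have hss : √|((j : ℕ) : ℝ) - ((i : ℕ) : ℝ)| ^ 2 = |((j : ℕ) : ℝ) - ((i : ℕ) : ℝ)| :=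
        Real.sq_sqrt hm.le
      generalize √|((j : ℕ) : ℝ) - ((i : ℕ) : ℝ)| = s at *
      have h2 : ∫ e, |ps e j - ps e i - (((j : ℕ) : ℝ) - ((i : ℕ) : ℝ))| ∂En n ≤
          ∫ e, ((ps e j - ps e i - (((j : ℕ) : ℝ) - ((i : ℕ) : ℝ))) ^ 2 / (2 * s) + s / 2)
            ∂En n := by
        refine integral_mono (((hps j).sub (hps i)).sub (integrable_const _)).abs
          ((hI2.div_const _).add (integrable_const _)) fun e => ?_
        have h3 : ∀ X : ℝ, |X| ≤ X ^ 2 / (2 * s) + s / 2 := by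
          intro X
          have h4 : X ^ 2 / (2 * s) + s / 2 - |X| = (|X| - s) ^ 2 / (2 * s) := by
            rw [← sq_abs X]
            field_simp
            ring
          have h5 : 0 ≤ (|X| - s) ^ 2 / (2 * s) := by positivity
          linarith
        exact h3 _
      rw [integral_add (hI2.div_const _) (integrable_const _), integral_div, hE2, ← hss] at h2
      have h6 : ∫ _ : Fin n → ℝ, s / 2 ∂En n = s / 2 := by simp
      rw [h6] at h2
      have h7 : s ^ 2 / (2 * s) + s / 2 = s := by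
        field_simp
        ring
      linarith
  · intro e he hij
    have h2 := ps_sub e hij.le
    have h3 : 0 < ∑ l ∈ Finset.Ioc i j, e l := by
      refine Finset.sum_pos (fun l _ => he l) ⟨j, ?_⟩
      rw [Finset.mem_Ioc]
      exact ⟨hij, le_rfl⟩
    linarith

end Pool.Agent.Helper60.KS
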