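import Mathlib

/-!
A slowly decreasing weight sequence for a sequence of superexponential decay.
-/

set_option autoImplicit false

open Filter Topology

namespace Pool.Agent.Helper60.KS

/-- If `t n ≤ C δ ^ n` for every `δ > 0`, there are weights `b n → 0`, `0 < b n ≤ ε`, whose products
dominate `2 ^ n t (n - m)` for every `m`. -/
theorem weights (t : ℕ → ℝ) (ht : ∀ δ > 0, ∃ C : ℝ, ∀ n, t n ≤ C * δ ^ n)
    (ε : ℝ) (hε : 0 < ε) :
    ∃ b : ℕ → ℝ, (∀ n, 0 < b n) ∧ (∀ n, b n ≤ ε) ∧ (∀ n, b n ≤ 1 / 2) ∧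
      Tendsto b atTop (𝓝 0) ∧
      ∀ m : ℕ, ∀ᶠ n in atTop, t (n - m) ≤ (1 / 2) ^ n * ∏ j ∈ Finset.range (n + 1), b j := by
  classical
  set e : ℝ := min ε (1 / 2) with he
  have he0 : 0 < e := lt_min hε (by norm_num)
  have he1 : e ≤ 1 / 2 := min_le_right _ _
  let δ : ℕ → ℝ := fun j => e / (j + 1)
  have hδ0 : ∀ j, 0 < δ j := fun j => by positivity
  have hδe : ∀ j, δ j ≤ e := fun j => by
    have : (1 : ℝ) ≤ (j : ℝ) + 1 := by
      have := Nat.cast_nonneg (α := ℝ) j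
      linarith
    exact div_le_self he0.le this
  have hδanti : ∀ i j, i ≤ j → δ j ≤ δ i := fun i j hij => by
    have h1 : (i : ℝ) ≤ j := by exact_mod_cast hij
    exact div_le_div_of_nonneg_left he0.le (by positivity) (by linarith)
  let P : ℕ → ℕ → Prop := fun j n => ∀ k, n / 2 ≤ k → t k ≤ (δ j ^ 4) ^ k
  have hPmono : ∀ j n n', n ≤ n' → P j n → P j n' := fun j n n' h hP k hk =>
    hP k ((Nat.div_le_div_right h).trans hk)
  have hPev : ∀ j, ∃ N, ∀ n, N ≤ n → P j n := by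
    intro j
    obtain ⟨C, hC⟩ := ht (δ j ^ 4 / 2) (by have := hδ0 j; positivity)
    obtain ⟨k0, hk0⟩ := pow_unbounded_of_one_lt C (by norm_num : (1 : ℝ) < 2)
    refine ⟨2 * k0, fun n hn k hk => ?_⟩
    have h1 : k0 ≤ k := by omega
    have h2 : C ≤ 2 ^ k := hk0.le.trans (pow_le_pow_right₀ (by norm_num) h1)
    have h3 : 0 ≤ (δ j ^ 4 / 2) ^ k := by have := hδ0 j; positivity
    calc t k ≤ C * (δ j ^ 4 / 2) ^ k := hC k
      _ ≤ 2 ^ k * (δ j ^ 4 / 2) ^ k := mul_le_mul_of_nonneg_right h2 h3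
      _ = (δ j ^ 4) ^ k := by rw [← mul_pow]; congr 1; ring
  let ν : ℕ → ℕ := fun n => Nat.findGreatest (fun j => P j n) n
  have hνmono : Monotone ν := fun n n' h =>
    Nat.findGreatest_mono (fun j hj => hPmono j n n' h hj) h
  have hνspec : ∃ N, ∀ n, N ≤ n → P (ν n) n := by
    obtain ⟨N, hN⟩ := hPev 0
    exact ⟨N, fun n hn => Nat.findGreatest_spec (P := fun j => P j n) (Nat.zero_le n) (hN n hn)⟩
  have hνtop : ∀ j, ∃ N, ∀ n, N ≤ n → j ≤ ν n := by
    intro j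
    obtain ⟨N, hN⟩ := hPev j
    exact ⟨max N j, fun n hn => Nat.le_findGreatest ((le_max_right N j).trans hn)
      (hN n ((le_max_left N j).trans hn))⟩
  refine ⟨fun n => δ (ν n), fun n => hδ0 _, fun n => (hδe _).trans (min_le_left _ _),
    fun n => (hδe _).trans he1, ?_, ?_⟩
  · have h1 : Tendsto δ atTop (𝓝 0) := tendsto_const_div_atTop_nhds_zero_nat e |>.comp
      (tendsto_add_atTop_nat 1) |>.congr fun j => by simp [δ, Function.comp]
    exact h1.comp (tendsto_atTop_atTop.2 fun j => hνtop j)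
  · intro m
    obtain ⟨N, hN⟩ := hνspec
    refine eventually_atTop.2 ⟨max N (2 * m + 2), fun n hn => ?_⟩
    have hn1 : N ≤ n := (le_max_left _ _).trans hn
    have hn2 : 2 * m + 2 ≤ n := (le_max_right _ _).trans hn
    set x := δ (ν n) with hx
    have hx0 : 0 < x := hδ0 _
    have hx1 : x ≤ 1 / 2 := (hδe _).trans he1
    have h1 : t (n - m) ≤ (x ^ 4) ^ (n - m) := hN n hn1 (n - m) (by omega)
    have h2 : x ^ (n + 1) ≤ ∏ j ∈ Finset.range (n + 1), δ (ν j) := by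
      have h3 : ∏ j ∈ Finset.range (n + 1), x = x ^ (n + 1) := by simp
      rw [← h3]
      refine Finset.prod_le_prod (fun _ _ => hx0.le) fun j hj => ?_
      exact hδanti _ _ (hνmono (by have := Finset.mem_range.1 hj; omega))
    have h4 : (x ^ 4) ^ (n - m) = x ^ (4 * (n - m) - (n + 1)) * x ^ (n + 1) := by
      rw [← pow_mul, ← pow_add]; congr 1; omega
    have h5 : x ^ (4 * (n - m) - (n + 1)) ≤ (1 / 2) ^ n :=
      calc x ^ (4 * (n - m) - (n + 1)) ≤ (1 / 2) ^ (4 * (n - m) - (n + 1)) :=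
            pow_le_pow_left₀ hx0.le hx1 _
        _ ≤ (1 / 2) ^ n := pow_le_pow_of_le_one (by norm_num) (by norm_num) (by omega)
    calc t (n - m) ≤ (x ^ 4) ^ (n - m) := h1
      _ = x ^ (4 * (n - m) - (n + 1)) * x ^ (n + 1) := h4
      _ ≤ (1 / 2) ^ n * x ^ (n + 1) := mul_le_mul_of_nonneg_right h5 (by positivity)
      _ ≤ (1 / 2) ^ n * ∏ j ∈ Finset.range (n + 1), δ (ν j) :=
          mul_le_mul_of_nonneg_left h2 (by positivity)

end Pool.Agent.Helper60.KS
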