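import Pool.Agent.Helper60.KS.WShift
import Pool.Agent.Helper60.KS.Seq

/-!
Quasinilpotent operators: adding a small quasinilpotent operator weighted bilateral shift.
-/

set_option autoImplicit false

open scoped InnerProductSpace ENNReal
open Filter Topology

namespace Pool.Agent.Helper60.KS

/-- The exponents `Π n = (n + 2) / (2 (n + 1))`. -/
noncomputable def piSeq (n : ℕ) : ℝ := (n + 2) / (2 * (n + 1))

theorem piSeq_zero : piSeq 0 = 1 := by simp [piSeq]

theorem piSeq_pos (n : ℕ) : 0 < piSeq n := by unfold piSeq; positivity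

theorem piSeq_half (n : ℕ) : 1 / 2 < piSeq n := by
  unfold piSeq
  rw [div_lt_div_iff₀ (by norm_num) (by positivity)]
  linarith

theorem piSeq_succ_lt (n : ℕ) : piSeq (n + 1) < piSeq n := by
  unfold piSeq
  have h := Nat.cast_nonneg (α := ℝ) n
  rw [div_lt_div_iff₀ (by positivity) (by positivity)]
  push_cast
  nlinarith

theorem piSeq_le (n : ℕ) : piSeq n ≤ 1 := by
  induction n with
  | zero => rw [piSeq_zero]
  | succ n ih => exact (piSeq_succ_lt n).le.trans ih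

noncomputable def thSeq (n : ℕ) : ℝ := piSeq (n + 1) / piSeq n

theorem thSeq_pos (n : ℕ) : 0 < thSeq n := div_pos (piSeq_pos _) (piSeq_pos _)

theorem thSeq_lt (n : ℕ) : thSeq n < 1 := (div_lt_one (piSeq_pos n)).2 (piSeq_succ_lt n)

variable {H : Type*} [NormedAddCommGroup H] [InnerProductSpace ℂ H]

theorem qn_summand [CompleteSpace H] [TopologicalSpace.SeparableSpace H] (A : H →L[ℂ] H)
    (hA : spectralRadius ℂ A = 0) (Gf : ℝ → H →L[ℂ] H) (A1 A2 : H →L[ℂ] H)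
    (hG1 : ∀ x, Gf 1 x = x)
    (hGm : ∀ θ φ : ℝ, 0 < θ → θ ≤ 1 → 0 < φ → φ ≤ 1 → ∀ x, Gf θ (Gf φ x) = Gf (θ * φ) x)
    (hGn : ∀ θ : ℝ, 0 < θ → θ ≤ 1 → ‖Gf θ‖ ≤ 1)
    (h1 : ∀ x, A x = A1 (Gf (1 / 2) x)) (h2 : ∀ x, A x = Gf (1 / 2) (A2 x))
    (ε : ℝ) (hε : 0 < ε) :
    ∃ B : L2Z H →L[ℂ] L2Z H, ‖B‖ ≤ ε ∧ spectralRadius ℂ B = 0 ∧
      ((∀ θ : ℝ, 0 < θ → θ < 1 → IsCompactOperator (Gf θ)) → IsCompactOperator B) ∧
      CountableMasaChain (dsum A B) := by
  classical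
  -- growth
  have hgrow : ∀ δ > 0, ∃ C : ℝ, ∀ n, ‖A ^ n‖ ≤ C * δ ^ n := by
    intro δ hδ
    obtain ⟨s, C, hs, hsδ, hC, h⟩ := growth A δ (by rw [hA]; exact ENNReal.ofReal_pos.2 hδ)
    refine ⟨C, fun n => (h n).trans ?_⟩
    exact mul_le_mul_of_nonneg_left (pow_le_pow_left₀ hs.le hsδ.le n) hC.le
  obtain ⟨b, hb0, hbε, hb1, hbt, hbw⟩ := weights (fun n => ‖A ^ n‖) hgrow ε hε
  have hbc : ∀ n, (b n : ℂ) ≠ 0 := fun n => by exact_mod_cast (hb0 n).ne'
  have hθ0 := thSeq_pos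
  have hθ1 := thSeq_lt
  have hq0 : ∀ n, 0 < 1 / (2 * piSeq n) := fun n => by have := piSeq_pos n; positivity
  have hq1 : ∀ n, 1 / (2 * piSeq n) ≤ 1 := fun n => by
    have h3 := piSeq_half n
    rw [div_le_one (by linarith)]; linarith
  -- the weights
  let w : ℤ → H →L[ℂ] H := fun k =>
    if k ≤ -2 then (b (-2 - k).toNat : ℂ) • Gf (thSeq (-2 - k).toNat)
    else (b (k + 1).toNat : ℂ) • Gf (thSeq (k + 1).toNat)
  have hwl : ∀ i : ℕ, w (-2 - (i : ℤ)) = (b i : ℂ) • Gf (thSeq i) := fun i => by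
    have h3 : (-2 - (i : ℤ)) ≤ -2 := by omega
    have h4 : (-2 - (-2 - (i : ℤ))).toNat = i := by omega
    simp only [w]; rw [if_pos h3, h4]
  have hwr : ∀ n : ℕ, w ((n : ℤ) - 1) = (b n : ℂ) • Gf (thSeq n) := fun n => by
    have h3 : ¬ ((n : ℤ) - 1) ≤ -2 := by omega
    have h4 : ((n : ℤ) - 1 + 1).toNat = n := by omega
    simp only [w]; rw [if_neg h3, h4]
  have hnb : ∀ n, ‖(b n : ℂ) • Gf (thSeq n)‖ ≤ b n := fun n => by
    rw [norm_smul, Complex.norm_real, Real.norm_eq_abs, abs_of_pos (hb0 n)]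
    exact mul_le_of_le_one_right (hb0 n).le (hGn _ (hθ0 n) (hθ1 n).le)
  have hwn : ∀ k, ∃ n : ℕ, w k = (b n : ℂ) • Gf (thSeq n) ∧ ((k : ℤ) = -2 - n ∨ k = n - 1) := by
    intro k
    rcases le_or_gt k (-2) with h | h
    · refine ⟨(-2 - k).toNat, ?_, Or.inl (by omega)⟩
      simp only [w]; rw [if_pos h]
    · refine ⟨(k + 1).toNat, ?_, Or.inr (by omega)⟩
      simp only [w]; rw [if_neg (by omega)]
  have hwε : ∀ k, ‖w k‖ ≤ ε := fun k => by
    obtain ⟨n, hn, _⟩ := hwn k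
    rw [hn]; exact (hnb n).trans (hbε n)
  have hw0 : ∀ δ > 0, ∃ s : Finset ℤ, ∀ n ∉ s, ‖w n‖ ≤ δ := by
    intro δ hδ
    obtain ⟨N, hN⟩ := eventually_atTop.1 (hbt.eventually_lt_const hδ)
    refine ⟨Finset.Icc (-2 - N) N, fun k hk => ?_⟩
    obtain ⟨n, hn, hn2⟩ := hwn k
    rw [hn]
    refine (hnb n).trans (hN n ?_).le
    rw [Finset.mem_Icc] at hk
    omega
  -- the maps a and J
  obtain ⟨a, ha⟩ : ∃ a : ℕ → H →L[ℂ] H, ∀ n x, a n x =
      (b n : ℂ)⁻¹ • Gf (piSeq n) (A1 (Gf (1 / (2 * piSeq (n + 1))) x)) :=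
    ⟨fun n => (b n : ℂ)⁻¹ • ((Gf (piSeq n)) ∘L A1 ∘L (Gf (1 / (2 * piSeq (n + 1))))),
      fun n x => rfl⟩
  obtain ⟨J, hJ0, hJs⟩ : ∃ J : ℕ → H →L[ℂ] H, (∀ x, J 0 x = x) ∧ ∀ n x, J (n + 1) x =
      ((∏ j ∈ Finset.range (n + 1), b j : ℝ) : ℂ)⁻¹ •
        Gf (1 / (2 * piSeq (n + 1))) (A2 ((A ^ n) x)) := by
    refine ⟨fun n => Nat.casesOn n (ContinuousLinearMap.id ℂ H) fun n =>
      ((∏ j ∈ Finset.range (n + 1), b j : ℝ) : ℂ)⁻¹ •
        ((Gf (1 / (2 * piSeq (n + 1)))) ∘L A2 ∘L (A ^ n)), fun x => rfl, fun n x => rfl⟩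
  have hprod : ∀ n, 0 < ∏ j ∈ Finset.range n, b j := fun n => Finset.prod_pos fun j _ => hb0 j
  have hJA : ∀ (i : ℕ) (x : H), J i (A x) = w (-2 - (i : ℤ)) (J (i + 1) x) := by
    intro i x
    rw [hwl]
    change J i (A x) = (b i : ℂ) • Gf (thSeq i) (J (i + 1) x)
    rw [hJs, map_smul, hGm _ _ (hθ0 i) (hθ1 i).le (hq0 _) (hq1 _), smul_smul]
    have e1 : thSeq i * (1 / (2 * piSeq (i + 1))) = 1 / (2 * piSeq i) := by
      have h3 := (piSeq_pos i).ne'
      have h4 := (piSeq_pos (i + 1)).ne'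
      unfold thSeq; field_simp
    rw [e1]
    cases i with
    | zero =>
      rw [hJ0, piSeq_zero]
      have e2 : (b 0 : ℂ) * ((∏ j ∈ Finset.range (0 + 1), b j : ℝ) : ℂ)⁻¹ = 1 := by
        rw [Finset.prod_range_one]; exact mul_inv_cancel₀ (hbc 0)
      rw [e2, one_smul, mul_one, pow_zero]
      exact h2 x
    | succ n =>
      rw [hJs]
      have e2 : (b (n + 1) : ℂ) * ((∏ j ∈ Finset.range (n + 1 + 1), b j : ℝ) : ℂ)⁻¹ =
          ((∏ j ∈ Finset.range (n + 1), b j : ℝ) : ℂ)⁻¹ := by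
        rw [Finset.prod_range_succ]; push_cast
        rw [mul_inv, mul_left_comm, mul_inv_cancel₀ (hbc (n + 1)), mul_one]
      rw [e2]
      have e3 : (A ^ (n + 1)) x = (A ^ n) (A x) := by rw [pow_succ]; rfl
      rw [e3]
  have ha0 : ∀ x, a 0 (w (-1) x) = A x := by
    intro x
    have h3 := hwr 0
    have h4 : ((0 : ℕ) : ℤ) - 1 = -1 := by norm_num
    rw [h4] at h3
    rw [h3]
    change a 0 ((b 0 : ℂ) • Gf (thSeq 0) x) = A x
    rw [map_smul, ha, piSeq_zero, hG1, hGm _ _ (hq0 _) (hq1 _) (hθ0 0) (hθ1 0).le, smul_smul,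
      mul_inv_cancel₀ (hbc 0), one_smul, h1 x]
    have e1 : 1 / (2 * piSeq (0 + 1)) * thSeq 0 = 1 / 2 := by
      have h5 := (piSeq_pos 1).ne'
      unfold thSeq; rw [piSeq_zero, zero_add]; field_simp
    rw [e1]
  have has : ∀ (n : ℕ) x, a (n + 1) (w (n : ℤ) x) = w ((n : ℤ) - 1) (a n x) := by
    intro n x
    have h3 := hwr (n + 1)
    have h4 : ((n + 1 : ℕ) : ℤ) - 1 = n := by push_cast; ring
    rw [h4] at h3
    rw [h3, hwr n]
    change a (n + 1) ((b (n + 1) : ℂ) • Gf (thSeq (n + 1)) x) = (b n : ℂ) • Gf (thSeq n) (a n x)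
    rw [map_smul, ha, ha, map_smul, hGm _ _ (hq0 _) (hq1 _) (hθ0 _) (hθ1 _).le,
      hGm _ _ (hθ0 n) (hθ1 n).le (piSeq_pos n) (piSeq_le n), smul_smul, smul_smul,
      mul_inv_cancel₀ (hbc _), mul_inv_cancel₀ (hbc _), one_smul, one_smul]
    have e1 : thSeq n * piSeq n = piSeq (n + 1) := by
      unfold thSeq; exact div_mul_cancel₀ _ (piSeq_pos n).ne'
    have e2 : 1 / (2 * piSeq (n + 1 + 1)) * thSeq (n + 1) = 1 / (2 * piSeq (n + 1)) := by
      have h5 := (piSeq_pos (n + 1)).ne'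
      have h6 := (piSeq_pos (n + 1 + 1)).ne'
      unfold thSeq; field_simp
    rw [e1, e2]
  refine ⟨wshift w ε hwε, wshift_norm w ε hwε, wshift_quasinilpotent w ε hwε hw0, fun hcomp => ?_, ?_⟩
  · refine wshift_compact w ε hwε (fun k => ?_) hw0
    obtain ⟨n, hn, _⟩ := hwn k
    rw [hn]
    exact (hcomp _ (hθ0 n) (hθ1 n)).smul (b n : ℂ)
  · -- the functionals
    obtain ⟨Λ, hΛ⟩ : ∃ Λ : ℕ → WithLp 2 (H × L2Z H) →L[ℂ] H, ∀ n (z : WithLp 2 (H × L2Z H)),
        Λ n z = - z.snd ((n : ℤ) - 1) + a n (z.snd (n : ℤ)) :=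
      ⟨fun n => - ((lp.evalCLM ℂ (fun _ : ℤ => H) 2 ((n : ℤ) - 1)) ∘L (WithLp.sndL 2 ℂ H (L2Z H)))
        + (a n) ∘L ((lp.evalCLM ℂ (fun _ : ℤ => H) 2 (n : ℤ)) ∘L (WithLp.sndL 2 ℂ H (L2Z H))),
        fun n z => rfl⟩
    refine stab A (wshift w ε hwε) w (wshift_succ w ε hwε) J hJA ?_ Λ ?_ ?_
    · intro x
      refine exists_neg _ ?_
      rw [← summable_nat_add_iff 1]
      have hs : Summable fun n : ℕ => (‖A2‖ * ‖x‖) ^ 2 * (1 / 4 : ℝ) ^ n :=
        (summable_geometric_of_lt_one (by norm_num) (by norm_num)).mul_left _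
      refine Summable.of_norm_bounded_eventually_nat hs ?_
      filter_upwards [hbw 0] with n hn
      rw [Nat.sub_zero] at hn
      have h3 : ‖J (n + 1) x‖ ≤ (‖A2‖ * ‖x‖) * (1 / 2) ^ n := by
        rw [hJs, norm_smul, norm_inv, Complex.norm_real, Real.norm_eq_abs,
          abs_of_pos (hprod (n + 1))]
        have h4 : ‖Gf (1 / (2 * piSeq (n + 1))) (A2 ((A ^ n) x))‖ ≤ ‖A2‖ * (‖A ^ n‖ * ‖x‖) :=
          calc ‖Gf (1 / (2 * piSeq (n + 1))) (A2 ((A ^ n) x))‖
              ≤ 1 * ‖A2 ((A ^ n) x)‖ := ((Gf _).le_opNorm _).trans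
                (mul_le_mul_of_nonneg_right (hGn _ (hq0 _) (hq1 _)) (norm_nonneg _))
            _ ≤ ‖A2‖ * ‖(A ^ n) x‖ := by rw [one_mul]; exact A2.le_opNorm _
            _ ≤ ‖A2‖ * (‖A ^ n‖ * ‖x‖) :=
                mul_le_mul_of_nonneg_left ((A ^ n).le_opNorm _) (norm_nonneg _)
        have h5 : ‖A ^ n‖ * (∏ j ∈ Finset.range (n + 1), b j)⁻¹ ≤ (1 / 2) ^ n := by
          rw [← div_eq_mul_inv, div_le_iff₀ (hprod (n + 1))]; exact hn
        calc (∏ j ∈ Finset.range (n + 1), b j)⁻¹ * ‖Gf (1 / (2 * piSeq (n + 1))) (A2 ((A ^ n) x))‖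
            ≤ (∏ j ∈ Finset.range (n + 1), b j)⁻¹ * (‖A2‖ * (‖A ^ n‖ * ‖x‖)) :=
              mul_le_mul_of_nonneg_left h4 (inv_nonneg.2 (hprod _).le)
          _ = (‖A2‖ * ‖x‖) * (‖A ^ n‖ * (∏ j ∈ Finset.range (n + 1), b j)⁻¹) := by ring
          _ ≤ (‖A2‖ * ‖x‖) * (1 / 2) ^ n := mul_le_mul_of_nonneg_left h5 (by positivity)
      rw [Real.norm_eq_abs, abs_of_nonneg (by positivity)]
      calc ‖J (n + 1) x‖ ^ 2 ≤ ((‖A2‖ * ‖x‖) * (1 / 2) ^ n) ^ 2 :=
            pow_le_pow_left₀ (norm_nonneg _) h3 2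
        _ = (‖A2‖ * ‖x‖) ^ 2 * (1 / 4 : ℝ) ^ n := by
            rw [mul_pow, ← pow_mul, mul_comm n 2, pow_mul]; norm_num
    · intro j
      refine ⟨0, fun z hz hj i hi => ?_⟩
      rw [zero_smul, sub_zero, hΛ]
      cases i with
      | zero =>
        have e1 : (dsum A (wshift w ε hwε) z).snd (((0 : ℕ) : ℤ) - 1) = w (-2) (z.snd (-2)) := by
          have := wshift_apply w ε hwε z.snd (((0 : ℕ) : ℤ) - 1)
          have h5 : (((0 : ℕ) : ℤ) - 1 - 1) = -2 := by norm_num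
          rw [dsum_snd, this, h5]
        have e2 : (dsum A (wshift w ε hwε) z).snd ((0 : ℕ) : ℤ) = w (-1) (z.snd (-1)) := by
          have := wshift_apply w ε hwε z.snd ((0 : ℕ) : ℤ)
          have h5 : (((0 : ℕ) : ℤ) - 1) = -1 := by norm_num
          rw [dsum_snd, this, h5]
        have e3 : z.snd (-1) = - z.fst := by
          have := hz 0
          rw [hJ0] at this
          simpa using this
        have e4 : z.snd (-2) = - J 1 z.fst := by
          have := hz 1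
          have h5 : (-1 - ((1 : ℕ) : ℤ)) = -2 := by norm_num
          rwa [h5] at this
        have e5 : w (-2) (J 1 z.fst) = A z.fst := by
          have := hJA 0 z.fst
          rw [hJ0] at this
          have h5 : (-2 - ((0 : ℕ) : ℤ)) = -2 := by norm_num
          rw [h5, zero_add] at this
          exact this.symm
        rw [e1, e2, e3, e4, map_neg, map_neg, map_neg, ha0, e5]
        abel
      | succ n =>
        have e1 : (dsum A (wshift w ε hwε) z).snd (((n + 1 : ℕ) : ℤ) - 1) =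
            w ((n : ℤ) - 1) (z.snd ((n : ℤ) - 1)) := by
          have := wshift_apply w ε hwε z.snd (((n + 1 : ℕ) : ℤ) - 1)
          rw [dsum_snd, this]
          have h5 : (((n + 1 : ℕ) : ℤ) - 1 - 1) = (n : ℤ) - 1 := by push_cast; ring
          rw [h5]
        have e2 : (dsum A (wshift w ε hwε) z).snd ((n + 1 : ℕ) : ℤ) = w (n : ℤ) (z.snd (n : ℤ)) := by
          have := wshift_apply w ε hwε z.snd ((n + 1 : ℕ) : ℤ)
          rw [dsum_snd, this]
          have h5 : (((n + 1 : ℕ) : ℤ) - 1) = (n : ℤ) := by push_cast; ring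
          rw [h5]
        rw [e1, e2, has]
        have e3 := hj n (by omega)
        rw [hΛ] at e3
        have e4 : z.snd ((n : ℤ) - 1) = a n (z.snd (n : ℤ)) := by
          have := eq_neg_of_add_eq_zero_left e3
          exact neg_inj.1 this
        rw [e4]; abel
    · intro z hz hz0
      have hrec : ∀ n : ℕ, z.snd ((n : ℤ) - 1) = a n (z.snd (n : ℤ)) := fun n => by
        have e3 := hz0 n
        rw [hΛ] at e3
        exact neg_inj.1 (eq_neg_of_add_eq_zero_left e3)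
      -- iterate
      have hit : ∀ m k : ℕ, z.snd (m : ℤ) =
          ((∏ j ∈ Finset.range (k + 1), b (m + 1 + j) : ℝ) : ℂ)⁻¹ • Gf (piSeq (m + 1))
            ((A ^ k) (A1 (Gf (1 / (2 * piSeq (m + 2 + k))) (z.snd ((m + 1 + k : ℕ) : ℤ))))) := by
        intro m k
        induction k with
        | zero =>
          have h3 := hrec (m + 1)
          have h4 : (((m + 1 : ℕ) : ℤ) - 1) = (m : ℤ) := by push_cast; ring
          rw [h4, ha] at h3
          rw [h3, Finset.prod_range_one]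
          simp only [pow_zero, add_zero]
          rfl
        | succ k ih =>
          rw [ih]
          have h3 := hrec (m + 1 + (k + 1))
          have h4 : (((m + 1 + (k + 1) : ℕ) : ℤ) - 1) = ((m + 1 + k : ℕ) : ℤ) := by push_cast; ring
          rw [h4, ha] at h3
          have e0 : m + 1 + (k + 1) = m + 2 + k := by ring
          rw [h3, e0]
          rw [map_smul, hGm _ _ (hq0 _) (hq1 _) (piSeq_pos _) (piSeq_le _)]
          have e1 : 1 / (2 * piSeq (m + 2 + k)) * piSeq (m + 2 + k) = 1 / 2 := by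
            have h5 := (piSeq_pos (m + 2 + k)).ne'
            field_simp
          rw [e1, map_smul, ← h1, map_smul, map_smul, smul_smul]
          have e2 : ∀ y, (A ^ k) (A y) = (A ^ (k + 1)) y := fun y => by rw [pow_succ]; rfl
          rw [e2]
          have e3 : ((∏ j ∈ Finset.range (k + 1), b (m + 1 + j) : ℝ) : ℂ)⁻¹ *
              (b (m + 2 + k) : ℂ)⁻¹ =
              ((∏ j ∈ Finset.range (k + 1 + 1), b (m + 1 + j) : ℝ) : ℂ)⁻¹ := by
            rw [Finset.prod_range_succ _ (k + 1), e0]; push_cast; rw [mul_inv]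
          rw [e3]
          have e4 : m + 2 + k + 1 = m + 2 + (k + 1) := by ring
          rw [e4]
      have hpos : ∀ m : ℕ, z.snd (m : ℤ) = 0 := by
        intro m
        have hbd : ∀ᶠ n in atTop, ‖z.snd (m : ℤ)‖ ≤ (∏ j ∈ Finset.range (m + 1), b j) *
            (‖A1‖ * ‖z.snd‖) * (1 / 2) ^ n := by
          filter_upwards [hbw (m + 1), eventually_ge_atTop (m + 1)] with n hn hn2
          obtain ⟨k, rfl⟩ := Nat.exists_eq_add_of_le hn2
          have h3 : m + 1 + k - (m + 1) = k := by omega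
          rw [h3] at hn
          have h4 : m + 1 + k + 1 = m + 1 + (k + 1) := by ring
          rw [h4, Finset.prod_range_add] at hn
          have hpk : 0 < ∏ j ∈ Finset.range (k + 1), b (m + 1 + j) :=
            Finset.prod_pos fun j _ => hb0 _
          have h5 : ‖z.snd (m : ℤ)‖ ≤ (∏ j ∈ Finset.range (k + 1), b (m + 1 + j))⁻¹ *
              (‖A ^ k‖ * (‖A1‖ * ‖z.snd‖)) := by
            rw [hit m k, norm_smul, norm_inv, Complex.norm_real, Real.norm_eq_abs, abs_of_pos hpk]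
            refine mul_le_mul_of_nonneg_left ?_ (inv_nonneg.2 hpk.le)
            calc ‖Gf (piSeq (m + 1)) ((A ^ k) (A1 (Gf (1 / (2 * piSeq (m + 2 + k)))
                  (z.snd ((m + 1 + k : ℕ) : ℤ)))))‖
                ≤ 1 * ‖(A ^ k) (A1 (Gf (1 / (2 * piSeq (m + 2 + k)))
                  (z.snd ((m + 1 + k : ℕ) : ℤ))))‖ := ((Gf _).le_opNorm _).trans
                    (mul_le_mul_of_nonneg_right (hGn _ (piSeq_pos _) (piSeq_le _)) (norm_nonneg _))
              _ ≤ ‖A ^ k‖ * ‖A1 (Gf (1 / (2 * piSeq (m + 2 + k)))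
                  (z.snd ((m + 1 + k : ℕ) : ℤ)))‖ := by rw [one_mul]; exact (A ^ k).le_opNorm _
              _ ≤ ‖A ^ k‖ * (‖A1‖ * ‖Gf (1 / (2 * piSeq (m + 2 + k)))
                  (z.snd ((m + 1 + k : ℕ) : ℤ))‖) :=
                    mul_le_mul_of_nonneg_left (A1.le_opNorm _) (norm_nonneg _)
              _ ≤ ‖A ^ k‖ * (‖A1‖ * ‖z.snd‖) := by
                    refine mul_le_mul_of_nonneg_left (mul_le_mul_of_nonneg_left ?_
                      (norm_nonneg _)) (norm_nonneg _)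
                    refine ((Gf _).le_opNorm _).trans ?_
                    refine (mul_le_mul_of_nonneg_right (hGn _ (hq0 _) (hq1 _))
                      (norm_nonneg _)).trans ?_
                    rw [one_mul]
                    exact lp_apply_norm _ _
          have h6 : (∏ j ∈ Finset.range (k + 1), b (m + 1 + j))⁻¹ * ‖A ^ k‖ ≤
              (1 / 2) ^ (m + 1 + k) * ∏ j ∈ Finset.range (m + 1), b j := by
            rw [inv_mul_le_iff₀ hpk]
            calc ‖A ^ k‖ ≤ _ := hn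
              _ = _ := by ring
          calc ‖z.snd (m : ℤ)‖ ≤ (∏ j ∈ Finset.range (k + 1), b (m + 1 + j))⁻¹ *
              (‖A ^ k‖ * (‖A1‖ * ‖z.snd‖)) := h5
            _ = ((∏ j ∈ Finset.range (k + 1), b (m + 1 + j))⁻¹ * ‖A ^ k‖) *
                (‖A1‖ * ‖z.snd‖) := by ring
            _ ≤ ((1 / 2) ^ (m + 1 + k) * ∏ j ∈ Finset.range (m + 1), b j) *
                (‖A1‖ * ‖z.snd‖) := mul_le_mul_of_nonneg_right h6 (by positivity)
            _ = _ := by ring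
        have hlim : Tendsto (fun n : ℕ => (∏ j ∈ Finset.range (m + 1), b j) *
            (‖A1‖ * ‖z.snd‖) * (1 / 2 : ℝ) ^ n) atTop (𝓝 0) := by
          have := (tendsto_pow_atTop_nhds_zero_of_lt_one (by norm_num : (0 : ℝ) ≤ 1 / 2)
            (by norm_num)).const_mul ((∏ j ∈ Finset.range (m + 1), b j) * (‖A1‖ * ‖z.snd‖))
          simpa using this
        have h7 := ge_of_tendsto hlim hbd
        exact norm_le_zero_iff.1 h7
      have hfst0 : z.fst = 0 := by
        have h3 := hrec 0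
        rw [hpos 0, map_zero] at h3
        have h4 := hz 0
        rw [hJ0] at h4
        have h5 : (((0 : ℕ) : ℤ) - 1) = -1 - ((0 : ℕ) : ℤ) := by norm_num
        rw [h5, h4] at h3
        exact neg_eq_zero.1 h3
      have hsnd0 : z.snd = 0 := by
        ext n
        rcases le_or_gt 0 n with hn | hn
        · obtain ⟨m, rfl⟩ := Int.eq_ofNat_of_zero_le hn
          rw [hpos m]; rfl
        · obtain ⟨i, hi⟩ : ∃ i : ℕ, n = -1 - (i : ℤ) := ⟨(-1 - n).toNat, by omega⟩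
          rw [hi, hz i, hfst0, map_zero, neg_zero]; rfl
      have h5 : z = WithLp.toLp 2 (z.fst, z.snd) := rfl
      rw [h5, hsnd0, hfst0]; rfl

end Pool.Agent.Helper60.KS
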