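import Pool.Agent.Helper60.KS.Chain

/-!
The direct sum of an operator with a bilateral operator weighted shift: a criterion.
-/

set_option autoImplicit false

open scoped InnerProductSpace ENNReal

namespace Pool.Agent.Helper60.KS

/-- The Hilbert space of square summable bilateral sequences in `E`. -/
abbrev L2Z (E : Type*) [NormedAddCommGroup E] : Type _ := lp (fun _ : ℤ => E) 2

/-- The (orthogonal) direct sum of two operators. -/
noncomputable def dsum {H K : Type*} [NormedAddCommGroup H] [InnerProductSpace ℂ H]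
    [NormedAddCommGroup K] [InnerProductSpace ℂ K] (A : H →L[ℂ] H) (B : K →L[ℂ] K) :
    WithLp 2 (H × K) →L[ℂ] WithLp 2 (H × K) :=
  ((WithLp.prodContinuousLinearEquiv 2 ℂ H K).symm : (H × K) →L[ℂ] WithLp 2 (H × K)) ∘L
    (A.prodMap B) ∘L ((WithLp.prodContinuousLinearEquiv 2 ℂ H K) : WithLp 2 (H × K) →L[ℂ] (H × K))

section
variable {H K : Type*} [NormedAddCommGroup H] [InnerProductSpace ℂ H]
    [NormedAddCommGroup K] [InnerProductSpace ℂ K] (A : H →L[ℂ] H) (B : K →L[ℂ] K)

@[simp] theorem dsum_fst (z : WithLp 2 (H × K)) : (dsum A B z).fst = A z.fst := rfl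
@[simp] theorem dsum_snd (z : WithLp 2 (H × K)) : (dsum A B z).snd = B z.snd := rfl

end

variable {H E : Type*} [NormedAddCommGroup H] [InnerProductSpace ℂ H]
    [NormedAddCommGroup E] [InnerProductSpace ℂ E]

instance separable_L2Z [TopologicalSpace.SeparableSpace E] :
    TopologicalSpace.SeparableSpace (L2Z E) := by
  have h1 : TopologicalSpace.IsSeparable
      (⋃ n : ℤ, Set.range (lp.singleContinuousLinearMap ℂ (fun _ : ℤ => E) 2 n)) :=
    TopologicalSpace.IsSeparable.iUnion fun n => TopologicalSpace.isSeparable_range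
      (ContinuousLinearMap.continuous _)
  have h2 := (h1.span (R := ℂ)).closure
  have h3 : closure ((Submodule.span ℂ
      (⋃ n : ℤ, Set.range (lp.singleContinuousLinearMap ℂ (fun _ : ℤ => E) 2 n)) :
        Submodule ℂ (L2Z E)) : Set (L2Z E)) = Set.univ := by
    rw [Set.eq_univ_iff_forall]
    intro u
    have h4 : HasSum (fun n : ℤ => lp.single 2 n (u n) (E := fun _ : ℤ => E)) u :=
      lp.hasSum_single ENNReal.ofNat_ne_top u
    refine mem_closure_of_tendsto h4 (Filter.Eventually.of_forall fun s => ?_)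
    refine Submodule.sum_mem _ fun n _ => Submodule.subset_span ?_
    exact Set.mem_iUnion.2 ⟨n, u n, rfl⟩
  rw [h3] at h2
  exact TopologicalSpace.isSeparable_univ_iff.1 h2

omit [InnerProductSpace ℂ E] in
theorem exists_neg (f : ℕ → E) (hf : Summable fun i => ‖f i‖ ^ 2) :
    ∃ u : L2Z E, ∀ i : ℕ, u (-1 - (i : ℤ)) = f i := by
  let g : ℤ → E := fun n => if n < 0 then f ((-1 - n).toNat) else 0
  have hinj : Function.Injective (fun i : ℕ => (-1 - (i : ℤ))) := fun i j h => by
    simp only at h; omega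
  have hg : ∀ i : ℕ, g (-1 - (i : ℤ)) = f i := fun i => by
    have h1 : (-1 - (i : ℤ)) < 0 := by omega
    have h2 : ((-1 - (-1 - (i : ℤ))).toNat) = i := by omega
    simp only [g, h1, h2, if_true]
  have hs : Summable fun n : ℤ => ‖g n‖ ^ (2 : ℝ≥0∞).toReal := by
    have h3 : (2 : ℝ≥0∞).toReal = ((2 : ℕ) : ℝ) := by norm_num
    rw [h3]
    simp only [Real.rpow_natCast]
    rw [← hinj.summable_iff]
    · refine hf.congr fun i => ?_
      simp only [Function.comp_apply, hg]
    · intro n hn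
      have h4 : ¬ n < 0 := by
        intro h5
        exact hn ⟨(-1 - n).toNat, by simp only; omega⟩
      simp only [g, h4, if_false, norm_zero]
      norm_num
  exact ⟨⟨g, memℓp_gen hs⟩, hg⟩

/-- The criterion. -/
theorem stab [CompleteSpace H] [CompleteSpace E] [TopologicalSpace.SeparableSpace H]
    [TopologicalSpace.SeparableSpace E] (A : H →L[ℂ] H) (B : L2Z E →L[ℂ] L2Z E)
    (w : ℤ → E →L[ℂ] E) (hB : ∀ (u : L2Z E) (n : ℤ), B u (n + 1) = w n (u n))
    (J : ℕ → H →L[ℂ] E) (hJ : ∀ i x, J i (A x) = w (-2 - (i : ℤ)) (J (i + 1) x))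
    (hJs : ∀ x, ∃ u : L2Z E, ∀ i : ℕ, u (-1 - (i : ℤ)) = J i x)
    {F : Type*} [NormedAddCommGroup F] [NormedSpace ℂ F]
    (Λ : ℕ → WithLp 2 (H × L2Z E) →L[ℂ] F)
    (hΛ : ∀ j, ∃ c : ℂ, ∀ z : WithLp 2 (H × L2Z E),
      (∀ i : ℕ, z.snd (-1 - (i : ℤ)) = - J i z.fst) → (∀ i < j, Λ i z = 0) →
      ∀ i ≤ j, Λ i (dsum A B z - c • z) = 0)
    (h0 : ∀ z : WithLp 2 (H × L2Z E),
      (∀ i : ℕ, z.snd (-1 - (i : ℤ)) = - J i z.fst) → (∀ i, Λ i z = 0) → z = 0) :
    CountableMasaChain (dsum A B) := by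
  classical
  have : TopologicalSpace.SeparableSpace (WithLp 2 (H × L2Z E)) := by
    have := (WithLp.prodContinuousLinearEquiv 2 ℂ H (L2Z E)).symm.toHomeomorph
    exact this.surjective.denseRange.separableSpace this.continuous
  have hJ0 : ∀ i, J i 0 = 0 := fun i => map_zero _
  let M : ℤ → Submodule ℂ (WithLp 2 (H × L2Z E)) := fun n =>
    { carrier := {z | (∀ i : ℕ, n ≤ i → z.snd (-1 - (i : ℤ)) = - J i z.fst) ∧
        (∀ j : ℕ, (j : ℤ) < -n → Λ j z = 0)}
      add_mem' := by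
        rintro z z' ⟨h1, h2⟩ ⟨h1', h2'⟩
        refine ⟨fun i hi => ?_, fun j hj => ?_⟩
        · have h3 : (z + z').snd (-1 - (i : ℤ)) = z.snd (-1 - (i : ℤ)) + z'.snd (-1 - (i : ℤ)) := rfl
          have h4 : (z + z').fst = z.fst + z'.fst := rfl
          rw [h3, h4, h1 i hi, h1' i hi, map_add]; abel
        · rw [map_add, h2 j hj, h2' j hj, add_zero]
      zero_mem' := by
        refine ⟨fun i _ => ?_, fun j _ => map_zero _⟩
        have h4 : (0 : WithLp 2 (H × L2Z E)).fst = 0 := rfl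
        rw [h4, hJ0, neg_zero]; rfl
      smul_mem' := by
        rintro c z ⟨h1, h2⟩
        refine ⟨fun i hi => ?_, fun j hj => ?_⟩
        · have h3 : (c • z).snd (-1 - (i : ℤ)) = c • z.snd (-1 - (i : ℤ)) := rfl
          have h4 : (c • z).fst = c • z.fst := rfl
          rw [h3, h4, h1 i hi, map_smul, smul_neg]
        · rw [map_smul, h2 j hj, smul_zero] }
  have hM : ∀ n z, z ∈ M n ↔ ((∀ i : ℕ, n ≤ i → z.snd (-1 - (i : ℤ)) = - J i z.fst) ∧
        (∀ j : ℕ, (j : ℤ) < -n → Λ j z = 0)) := fun n z => Iff.rfl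
  have hev : ∀ m : ℤ, Continuous fun z : WithLp 2 (H × L2Z E) => z.snd m := fun m =>
    (lp.evalCLM ℂ (fun _ : ℤ => E) 2 m).continuous.comp (WithLp.sndL 2 ℂ H (L2Z E)).continuous
  have hfst : Continuous fun z : WithLp 2 (H × L2Z E) => z.fst :=
    (WithLp.fstL 2 ℂ H (L2Z E)).continuous
  refine of_filtration (dsum A B) M ?_ ?_ ?_ ?_ ?_
  · intro n n' hn z hz
    exact ⟨fun i hi => hz.1 i (hn.trans hi), fun j hj => hz.2 j (by omega)⟩
  · intro n
    have h1 : (M n : Set (WithLp 2 (H × L2Z E))) =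
        (⋂ i : {i : ℕ // n ≤ i}, {z | z.snd (-1 - ((i : ℕ) : ℤ)) = - J i z.fst}) ∩
        (⋂ j : {j : ℕ // (j : ℤ) < -n}, {z | Λ j z = 0}) := by
      ext z
      simp only [SetLike.mem_coe, hM, Set.mem_inter_iff, Set.mem_iInter, Subtype.forall]
      rfl
    rw [h1]
    refine IsClosed.inter (isClosed_iInter fun i => ?_) (isClosed_iInter fun j => ?_)
    · exact isClosed_eq (hev _) ((J i).continuous.comp hfst).neg
    · exact isClosed_eq (Λ j).continuous continuous_const
  · intro n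
    rcases le_or_gt 0 n with hn | hn
    · refine ⟨0, fun z hz => ?_⟩
      rw [zero_smul, sub_zero]
      refine ⟨fun i hi => ?_, fun j hj => by omega⟩
      rw [dsum_snd, dsum_fst, hJ]
      have h1 : (-1 - (i : ℤ)) = (-2 - (i : ℤ)) + 1 := by ring
      rw [h1, hB]
      have h2 : (-2 - (i : ℤ)) = -1 - ((i + 1 : ℕ) : ℤ) := by push_cast; ring
      rw [h2, hz.1 (i + 1) (by push_cast; omega), map_neg]
    · obtain ⟨j0, hj0⟩ : ∃ j0 : ℕ, (j0 : ℤ) = -n - 1 := ⟨(-n - 1).toNat, by omega⟩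
      obtain ⟨c, hc⟩ := hΛ j0
      refine ⟨c, fun z hz => ?_⟩
      have hz1 : ∀ i : ℕ, z.snd (-1 - (i : ℤ)) = - J i z.fst := fun i => hz.1 i (by omega)
      refine ⟨fun i _ => ?_, fun j hj => hc z hz1 (fun i hi => hz.2 i (by omega)) j (by omega)⟩
      have h3 : (dsum A B z - c • z).snd (-1 - (i : ℤ)) =
        B z.snd (-1 - (i : ℤ)) - c • z.snd (-1 - (i : ℤ)) := rfl
      have h4 : (dsum A B z - c • z).fst = A z.fst - c • z.fst := rfl
      rw [h3, h4, map_sub, map_smul, hJ, hz1 i]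
      have h1 : (-1 - (i : ℤ)) = (-2 - (i : ℤ)) + 1 := by ring
      rw [h1, hB]
      have h2 : (-2 - (i : ℤ)) = -1 - ((i + 1 : ℕ) : ℤ) := by push_cast; ring
      rw [h2, hz1 (i + 1), map_neg, smul_neg]
      abel
  · intro z hz
    refine h0 z (fun i => (hz 0).1 i (by omega)) fun j => (hz (-(j : ℤ) - 1)).2 j (by omega)
  · intro z hz
    have hsnd : z.snd = 0 := by
      ext m
      have h1 : WithLp.toLp 2 ((0 : H), lp.single 2 m (z.snd m) (E := fun _ : ℤ => E)) ∈
          M (max (-m) 0) := by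
        refine ⟨fun i hi => ?_, fun j hj => ?_⟩
        · change (lp.single 2 m (z.snd m) (E := fun _ : ℤ => E)) (-1 - (i : ℤ)) = - J i 0
          rw [hJ0, neg_zero]
          have h2 : -m ≤ i := le_trans (le_max_left _ _) hi
          have h6 : (-1 - (i : ℤ)) ≠ m := by omega
          exact lp.single_apply_ne (E := fun _ : ℤ => E) 2 m (z.snd m) h6
        · have h2 : (0 : ℤ) ≤ max (-m) 0 := le_max_right _ _
          omega
      have h3 := (Submodule.mem_orthogonal _ _).1 (hz _) _ h1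
      rw [WithLp.prod_inner_apply] at h3
      have h4 : ⟪(0 : H), z.fst⟫_ℂ +
          ⟪lp.single 2 m (z.snd m) (E := fun _ : ℤ => E), z.snd⟫_ℂ = 0 := h3
      rw [inner_zero_left, zero_add, lp.inner_single_left] at h4
      have h5 : z.snd m = 0 := inner_self_eq_zero.1 h4
      rw [h5]; rfl
    have hfst0 : z.fst = 0 := by
      obtain ⟨u, hu⟩ := hJs z.fst
      have h1 : WithLp.toLp 2 (z.fst, -u) ∈ M 0 := by
        refine ⟨fun i _ => ?_, fun j hj => by omega⟩
        change (-u) (-1 - (i : ℤ)) = - J i z.fst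
        rw [← hu i]; rfl
      have h3 := (Submodule.mem_orthogonal _ _).1 (hz _) _ h1
      rw [WithLp.prod_inner_apply] at h3
      have h4 : ⟪z.fst, z.fst⟫_ℂ + ⟪-u, z.snd⟫_ℂ = 0 := h3
      rw [hsnd, inner_zero_right, add_zero] at h4
      exact inner_self_eq_zero.1 h4
    have h5 : z = WithLp.toLp 2 (z.fst, z.snd) := rfl
    rw [h5, hsnd, hfst0]; rfl

end Pool.Agent.Helper60.KS
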