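import Pool.Agent.Helper60.KS.Bilateral

/-!
Bilateral operator weighted shifts: norm, compactness, quasinilpotency.
-/

set_option autoImplicit false

open scoped InnerProductSpace ENNReal
open Filter Topology

namespace Pool.Agent.Helper60.KS

variable {E : Type*} [NormedAddCommGroup E] [InnerProductSpace ℂ E]

omit [InnerProductSpace ℂ E] in
theorem l2_summable (u : L2Z E) : Summable fun n => ‖u n‖ ^ 2 := by
  have h2 : 0 < (2 : ℝ≥0∞).toReal := by norm_num
  have h1 := (memℓp_gen_iff h2).1 (lp.memℓp u)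
  refine h1.congr fun n => ?_
  have h3 : (2 : ℝ≥0∞).toReal = ((2 : ℕ) : ℝ) := by norm_num
  rw [h3, Real.rpow_natCast]

omit [InnerProductSpace ℂ E] in
theorem l2_norm_sq (u : L2Z E) : ‖u‖ ^ 2 = ∑' n, ‖u n‖ ^ 2 := by
  have h2 : 0 < (2 : ℝ≥0∞).toReal := by norm_num
  have h3 : (2 : ℝ≥0∞).toReal = ((2 : ℕ) : ℝ) := by norm_num
  have h1 := lp.norm_rpow_eq_tsum h2 u
  rw [h3] at h1
  simpa [Real.rpow_natCast] using h1

omit [InnerProductSpace ℂ E] in
theorem l2_of_le (f : ℤ → E) (u : L2Z E) (c : ℝ) (k : ℤ)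
    (h : ∀ n, ‖f n‖ ≤ c * ‖u (n - k)‖) : Summable fun n => ‖f n‖ ^ 2 := by
  have h1 : Summable fun n : ℤ => c ^ 2 * ‖u (n - k)‖ ^ 2 :=
    ((Equiv.summable_iff (Equiv.subRight k) (f := fun n => ‖u n‖ ^ 2)).2 (l2_summable u)).mul_left _
  refine Summable.of_nonneg_of_le (fun n => by positivity) (fun n => ?_) h1
  rw [← mul_pow]
  exact pow_le_pow_left₀ (norm_nonneg _) (h n) 2

omit [InnerProductSpace ℂ E] in
theorem l2_norm_le (v u : L2Z E) (c : ℝ) (hc : 0 ≤ c) (k : ℤ)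
    (h : ∀ n, ‖v n‖ ≤ c * ‖u (n - k)‖) : ‖v‖ ≤ c * ‖u‖ := by
  have h1 : Summable fun n : ℤ => c ^ 2 * ‖u (n - k)‖ ^ 2 :=
    ((Equiv.summable_iff (Equiv.subRight k) (f := fun n => ‖u n‖ ^ 2)).2 (l2_summable u)).mul_left _
  have h2 : ‖v‖ ^ 2 ≤ (c * ‖u‖) ^ 2 := by
    rw [l2_norm_sq v, mul_pow, l2_norm_sq u]
    have h3 : ∑' n : ℤ, c ^ 2 * ‖u (n - k)‖ ^ 2 = c ^ 2 * ∑' n, ‖u n‖ ^ 2 := by
      rw [tsum_mul_left]
      congr 1
      exact Equiv.tsum_eq (Equiv.subRight k) (fun n => ‖u n‖ ^ 2)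
    rw [← h3]
    refine Summable.tsum_le_tsum (fun n => ?_) (l2_of_le _ u c k h) h1
    rw [← mul_pow]
    exact pow_le_pow_left₀ (norm_nonneg _) (h n) 2
  exact le_of_sq_le_sq h2 (by positivity) |> fun h => h

/-- The bilateral operator weighted shift `(B u) n = w (n - 1) (u (n - 1))`. -/
noncomputable def wshift (w : ℤ → E →L[ℂ] E) (c : ℝ) (hc : ∀ n, ‖w n‖ ≤ c) :
    L2Z E →L[ℂ] L2Z E :=
  LinearMap.mkContinuous
    { toFun := fun u => ⟨fun n => w (n - 1) (u (n - 1)), by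
        have h1 := l2_of_le (fun n => w (n - 1) (u (n - 1))) u c 1 fun n =>
          ((w (n - 1)).le_opNorm _).trans (mul_le_mul_of_nonneg_right (hc _) (norm_nonneg _))
        refine memℓp_gen ?_
        have h3 : (2 : ℝ≥0∞).toReal = ((2 : ℕ) : ℝ) := by norm_num
        rw [h3]
        simpa [Real.rpow_natCast] using h1⟩
      map_add' := fun u v => by
        ext n
        exact map_add (w (n - 1)) (u (n - 1)) (v (n - 1))
      map_smul' := fun a u => by
        ext n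
        exact map_smul (w (n - 1)) a (u (n - 1)) } c
    (fun u => l2_norm_le _ u c ((norm_nonneg _).trans (hc 0)) 1 fun n =>
      ((w (n - 1)).le_opNorm _).trans (mul_le_mul_of_nonneg_right (hc _) (norm_nonneg _)))

theorem wshift_apply (w : ℤ → E →L[ℂ] E) (c : ℝ) (hc : ∀ n, ‖w n‖ ≤ c) (u : L2Z E) (n : ℤ) :
    wshift w c hc u n = w (n - 1) (u (n - 1)) := rfl

theorem wshift_succ (w : ℤ → E →L[ℂ] E) (c : ℝ) (hc : ∀ n, ‖w n‖ ≤ c) (u : L2Z E) (n : ℤ) :
    wshift w c hc u (n + 1) = w n (u n) := by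
  rw [wshift_apply, add_sub_cancel_right]

theorem wshift_norm (w : ℤ → E →L[ℂ] E) (c : ℝ) (hc : ∀ n, ‖w n‖ ≤ c) :
    ‖wshift w c hc‖ ≤ c :=
  LinearMap.mkContinuous_norm_le _ ((norm_nonneg _).trans (hc 0)) _

theorem wshift_compact [CompleteSpace E] (w : ℤ → E →L[ℂ] E) (c : ℝ) (hc : ∀ n, ‖w n‖ ≤ c)
    (hw : ∀ n, IsCompactOperator (w n)) (h0 : ∀ δ > 0, ∃ s : Finset ℤ, ∀ n ∉ s, ‖w n‖ ≤ δ) :
    IsCompactOperator (wshift w c hc) := by
  classical
  -- finite pieces
  let F : Finset ℤ → L2Z E →L[ℂ] L2Z E := fun s => ∑ n ∈ s,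
    (lp.singleContinuousLinearMap ℂ (fun _ : ℤ => E) 2 (n + 1)) ∘L (w n) ∘L
      (lp.evalCLM ℂ (fun _ : ℤ => E) 2 n)
  have hF : ∀ s, IsCompactOperator (F s) := fun s => by
    have h0 : F s ∈ compactOperator (RingHom.id ℂ) (L2Z E) (L2Z E) := by
      refine Submodule.sum_mem _ fun n _ => ?_
      have h1 : IsCompactOperator (((w n) ∘L (lp.evalCLM ℂ (fun _ : ℤ => E) 2 n) :
          L2Z E →L[ℂ] E) : L2Z E → E) := (hw n).comp_clm _
      exact h1.clm_comp (lp.singleContinuousLinearMap ℂ (fun _ : ℤ => E) 2 (n + 1))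
    exact h0
  have hFa : ∀ s u n, F s u n = if n - 1 ∈ s then w (n - 1) (u (n - 1)) else 0 := by
    intro s u n
    have h1 : F s u n = ∑ k ∈ s, (lp.single 2 (k + 1) (w k (u k)) (E := fun _ : ℤ => E)) n := by
      simp only [F, sum_apply]
      rw [lp.coeFn_sum]
      simp only [Finset.sum_apply]
      rfl
    rw [h1]
    by_cases hn : n - 1 ∈ s
    · rw [if_pos hn, Finset.sum_eq_single (n - 1)]
      · have h2 : n - 1 + 1 = n := sub_add_cancel n 1
        have h3 := lp.single_apply_self (E := fun _ : ℤ => E) 2 (n - 1 + 1) (w (n - 1) (u (n - 1)))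
        rw [h2] at h3
        rw [h2]; exact h3
      · intro k _ hk
        exact lp.single_apply_ne (E := fun _ : ℤ => E) 2 (k + 1) _ (by omega)
      · intro h; exact absurd hn h
    · rw [if_neg hn]
      refine Finset.sum_eq_zero fun k hk => ?_
      exact lp.single_apply_ne (E := fun _ : ℤ => E) 2 (k + 1) _ (by rintro rfl; simp at hn; exact hn hk)
  choose s hs using fun j : ℕ => h0 (1 / (j + 1)) (by positivity)
  refine isCompactOperator_of_tendsto (F := fun j : ℕ => F (s j)) (l := atTop) ?_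
    (Eventually.of_forall fun j => hF _)
  rw [tendsto_iff_norm_sub_tendsto_zero]
  refine squeeze_zero (fun _ => norm_nonneg _) (fun j => ?_)
    (tendsto_one_div_add_atTop_nhds_zero_nat (𝕜 := ℝ))
  refine ContinuousLinearMap.opNorm_le_bound _ (by positivity) fun u => ?_
  refine l2_norm_le _ u _ (by positivity) 1 fun n => ?_
  have h4 : (F (s j) - wshift w c hc) u n = F (s j) u n - wshift w c hc u n := rfl
  rw [h4, hFa, wshift_apply]
  by_cases hn : n - 1 ∈ s j
  · rw [if_pos hn, sub_self, norm_zero]; positivity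
  · rw [if_neg hn, zero_sub, norm_neg]
    exact ((w (n - 1)).le_opNorm _).trans
      (mul_le_mul_of_nonneg_right (hs j _ hn) (norm_nonneg _))

theorem spectralRadius_le_of_growth {B : Type*} [NormedRing B] [NormedAlgebra ℂ B]
    [CompleteSpace B] (b : B) (C δ : ℝ) (hC : 0 < C) (hδ : 0 ≤ δ)
    (h : ∀ k : ℕ, ‖b ^ k‖ ≤ C * δ ^ k) : spectralRadius ℂ b ≤ ENNReal.ofReal δ := by
  have h1 := spectrum.pow_norm_pow_one_div_tendsto_nhds_spectralRadius b
  have h2 : Tendsto (fun k : ℕ => C ^ (1 / (k : ℝ)) * δ) atTop (𝓝 (1 * δ)) := by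
    refine Tendsto.mul_const δ ?_
    have h3 : Tendsto (fun k : ℕ => 1 / (k : ℝ)) atTop (𝓝 0) := tendsto_one_div_atTop_nhds_zero_nat
    have h4 : Tendsto (fun k : ℕ => C ^ (1 / (k : ℝ))) atTop (𝓝 (C ^ (0 : ℝ))) :=
      (Real.continuousAt_const_rpow hC.ne' (b := 0)).tendsto.comp h3
    rwa [Real.rpow_zero] at h4
  have h5 := ENNReal.tendsto_ofReal h2
  rw [one_mul] at h5
  refine le_of_tendsto_of_tendsto h1 h5 ?_
  filter_upwards [eventually_ge_atTop 1] with k hk
  refine ENNReal.ofReal_le_ofReal ?_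
  have hk0 : (k : ℝ) ≠ 0 := by positivity
  calc ‖b ^ k‖ ^ (1 / (k : ℝ)) ≤ (C * δ ^ k) ^ (1 / (k : ℝ)) :=
        Real.rpow_le_rpow (norm_nonneg _) (h k) (by positivity)
    _ = C ^ (1 / (k : ℝ)) * δ := by
        rw [Real.mul_rpow hC.le (by positivity), ← Real.rpow_natCast δ k, ← Real.rpow_mul hδ,
          mul_one_div_cancel hk0, Real.rpow_one]

theorem wshift_quasinilpotent [CompleteSpace E] (w : ℤ → E →L[ℂ] E) (c : ℝ)
    (hc : ∀ n, ‖w n‖ ≤ c) (h0 : ∀ δ > 0, ∃ s : Finset ℤ, ∀ n ∉ s, ‖w n‖ ≤ δ) :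
    spectralRadius ℂ (wshift w c hc) = 0 := by
  classical
  refine le_antisymm ?_ bot_le
  refine ENNReal.le_of_forall_pos_le_add fun δ hδ _ => ?_
  rw [zero_add]
  have hδ' : (0 : ℝ) < δ := by exact_mod_cast hδ
  obtain ⟨s, hs⟩ := h0 δ hδ'
  set d : ℝ := max c δ with hd
  have hdδ : (δ : ℝ) ≤ d := le_max_right _ _
  have hd0 : 0 < d := hδ'.trans_le hdδ
  have hdc : ∀ n, ‖w n‖ ≤ d := fun n => (hc n).trans (le_max_left _ _)
  set x : ℝ := δ / d with hx
  have hx0 : 0 < x := by positivity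
  have hx1 : x ≤ 1 := (div_le_one hd0).2 hdδ
  let φ : ℤ → ℝ := fun n => x ^ (s.filter (fun j => j < n)).card
  have hφ1 : ∀ n, φ n ≤ 1 := fun n => pow_le_one₀ hx0.le hx1
  have hφ2 : ∀ n, x ^ s.card ≤ φ n := fun n =>
    pow_le_pow_of_le_one hx0.le hx1 (Finset.card_filter_le _ _)
  have hφ0 : ∀ n, 0 < φ n := fun n => by positivity
  have hstep : ∀ n, φ (n + 1) * ‖w n‖ ≤ δ * φ n := by
    intro n
    by_cases hn : n ∈ s
    · have h1 : s.filter (fun j => j < n + 1) = insert n (s.filter (fun j => j < n)) := by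
        ext j
        simp only [Finset.mem_filter, Finset.mem_insert]
        constructor
        · rintro ⟨hj, hj2⟩
          rcases eq_or_ne j n with h | h
          · exact Or.inl h
          · exact Or.inr ⟨hj, by omega⟩
        · rintro (h | ⟨hj, hj2⟩)
          · subst h; exact ⟨hn, by omega⟩
          · exact ⟨hj, by omega⟩
      have h2 : φ (n + 1) = φ n * x := by
        simp only [φ]
        rw [h1, Finset.card_insert_of_notMem (by simp), pow_succ]
      rw [h2]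
      have h3 : x * ‖w n‖ ≤ δ := by
        rw [hx, div_mul_eq_mul_div, div_le_iff₀ hd0]
        exact mul_le_mul_of_nonneg_left (hdc n) hδ'.le
      calc φ n * x * ‖w n‖ = φ n * (x * ‖w n‖) := by ring
        _ ≤ φ n * δ := mul_le_mul_of_nonneg_left h3 (hφ0 n).le
        _ = δ * φ n := by ring
    · have h1 : s.filter (fun j => j < n + 1) = s.filter (fun j => j < n) := by
        ext j
        simp only [Finset.mem_filter]
        constructor
        · rintro ⟨hj, hj2⟩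
          refine ⟨hj, ?_⟩
          have : j ≠ n := by rintro rfl; exact hn hj
          omega
        · rintro ⟨hj, hj2⟩
          exact ⟨hj, by omega⟩
      have h2 : φ (n + 1) = φ n := by simp only [φ]; rw [h1]
      rw [h2, mul_comm]
      exact mul_le_mul_of_nonneg_right (hs n hn) (hφ0 n).le
  have hpow : ∀ (k : ℕ) (u : L2Z E) (n : ℤ),
      φ n * ‖((wshift w c hc) ^ k) u n‖ ≤ δ ^ k * ‖u (n - k)‖ := by
    intro k
    induction k with
    | zero =>
      intro u n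
      simp only [pow_zero, one_apply_eq_self, one_mul, Nat.cast_zero, sub_zero]
      exact mul_le_of_le_one_left (norm_nonneg _) (hφ1 n)
    | succ k ih =>
      intro u n
      have h1 : ((wshift w c hc) ^ (k + 1)) u n =
          w (n - 1) (((wshift w c hc) ^ k) u (n - 1)) := by
        rw [pow_succ']
        rfl
      rw [h1]
      have h2 := hstep (n - 1)
      rw [sub_add_cancel] at h2
      have h3 := ih u (n - 1)
      have h4 : ((n - 1 : ℤ) - (k : ℤ)) = n - ((k + 1 : ℕ) : ℤ) := by push_cast; ring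
      rw [h4] at h3
      calc φ n * ‖w (n - 1) (((wshift w c hc) ^ k) u (n - 1))‖
          ≤ φ n * (‖w (n - 1)‖ * ‖((wshift w c hc) ^ k) u (n - 1)‖) :=
            mul_le_mul_of_nonneg_left ((w (n - 1)).le_opNorm _) (hφ0 n).le
        _ = (φ n * ‖w (n - 1)‖) * ‖((wshift w c hc) ^ k) u (n - 1)‖ := by ring
        _ ≤ (δ * φ (n - 1)) * ‖((wshift w c hc) ^ k) u (n - 1)‖ :=
            mul_le_mul_of_nonneg_right h2 (norm_nonneg _)
        _ = δ * (φ (n - 1) * ‖((wshift w c hc) ^ k) u (n - 1)‖) := by ring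
        _ ≤ δ * (δ ^ k * ‖u (n - ((k + 1 : ℕ) : ℤ))‖) := mul_le_mul_of_nonneg_left h3 hδ'.le
        _ = δ ^ (k + 1) * ‖u (n - ((k + 1 : ℕ) : ℤ))‖ := by ring
  have hX : 0 < x ^ s.card := by positivity
  have h6 := spectralRadius_le_of_growth (wshift w c hc) ((x ^ s.card)⁻¹) δ (by positivity) hδ'.le
    (fun k => ?_)
  · simpa using h6
  · refine ContinuousLinearMap.opNorm_le_bound _ (by positivity) fun u => ?_
    refine l2_norm_le _ u _ (by positivity) k fun n => ?_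
    have h7 := hpow k u n
    have h8 : x ^ s.card * ‖((wshift w c hc) ^ k) u n‖ ≤ δ ^ k * ‖u (n - k)‖ :=
      (mul_le_mul_of_nonneg_right (hφ2 n) (norm_nonneg _)).trans h7
    calc ‖((wshift w c hc) ^ k) u n‖
        = (x ^ s.card)⁻¹ * (x ^ s.card * ‖((wshift w c hc) ^ k) u n‖) := by
          rw [← mul_assoc, inv_mul_cancel₀ hX.ne', one_mul]
      _ ≤ (x ^ s.card)⁻¹ * (δ ^ k * ‖u (n - k)‖) := mul_le_mul_of_nonneg_left h8 (by positivity)
      _ = (x ^ s.card)⁻¹ * δ ^ k * ‖u (n - k)‖ := by ring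

end Pool.Agent.Helper60.KS
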